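import Pool.Agent.H32.SQ.Defs

/-!
PIECE SQ-6: the subgroups generated by an element of infinite order and `z`.

PROOF. `pow_notMem`: if `a ^ j ∈ ⟨z⟩ = {1, z}`, then `a ^ (2 * j) = 1`.
`cycHom_inj`: if `a ^ n * ζ = 1` with `ζ ∈ ⟨z⟩`, then `a ^ (2 n) = 1`, so `n = 0` (`a` has infinite order) and `ζ = 1`.
`cycEquiv`: `MonoidHom.ofInjective` for both sides.  All other statements are immediate.
-/

namespace Pool.Agent.H32.SQ

private theorem Cyc_com (D : DG) {ζ : D.G} (hζ : ζ ∈ Subgroup.zpowers D.z) (g : D.G) :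
    ζ * g = g * ζ := by
  obtain ⟨n, rfl⟩ := Subgroup.mem_zpowers_iff.1 hζ
  have h : Commute D.z g := D.cen g
  exact (h.zpow_left n).eq

theorem DG.zpowers_normal (D : DG) : (Subgroup.zpowers D.z).Normal := by
  refine ⟨fun x hx g => ?_⟩
  have h2 : g * x * g⁻¹ = x := by
    rw [← Cyc_com D hx g, mul_inv_cancel_right]
  rw [h2]
  exact hx

theorem DG.mem_zpowers_iff (D : DG) {x : D.G} : x ∈ Subgroup.zpowers D.z ↔ x = 1 ∨ x = D.z := by
  constructor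
  · intro hx
    obtain ⟨n, rfl⟩ := Subgroup.mem_zpowers_iff.1 hx
    have h2 : D.z ^ (2 : ℤ) = 1 := by
      rw [zpow_ofNat, pow_two]
      exact D.sq
    rcases Int.even_or_odd' n with ⟨k, hk | hk⟩
    · left
      rw [hk, zpow_mul, h2, one_zpow]
    · right
      rw [hk, zpow_add, zpow_mul, h2, one_zpow, one_mul, zpow_one]
  · rintro (h | h)
    · rw [h]
      exact one_mem _
    · rw [h]
      exact Subgroup.mem_zpowers _

private theorem Cyc_sq (D : DG) {x : D.G} (hx : x ∈ Subgroup.zpowers D.z) : x * x = 1 := by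
  rcases (D.mem_zpowers_iff).1 hx with h | h
  · rw [h, one_mul]
  · rw [h]
    exact D.sq

theorem DG.card_zpowers (D : DG) : Nat.card (Subgroup.zpowers D.z) = 2 := by
  rw [Nat.card_zpowers]
  haveI : Fact (Nat.Prime 2) := ⟨Nat.prime_two⟩
  exact orderOf_eq_prime (by rw [pow_two]; exact D.sq) D.ne

theorem DG.pow_notMem (D : DG) {a : D.G} (ha : ¬ IsOfFinOrder a) {j : ℕ} (hj : 0 < j) :
    a ^ j ∉ Subgroup.zpowers D.z := by
  intro h
  have h1 := Cyc_sq D h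
  rw [← pow_add] at h1
  exact ha (isOfFinOrder_iff_pow_eq_one.2 ⟨j + j, by omega, h1⟩)

/-- `(n, ζ) ↦ a ^ n * ζ` -/
def cycHom (D : DG) (a : D.G) : Multiplicative ℤ × Subgroup.zpowers D.z →* D.G where
  toFun p := a ^ (Multiplicative.toAdd p.1) * p.2
  map_one' := by
    simp
  map_mul' := by
    rintro ⟨n, ζ⟩ ⟨m, ξ⟩
    change a ^ (Multiplicative.toAdd n + Multiplicative.toAdd m) * ((ζ : D.G) * (ξ : D.G)) =
      a ^ (Multiplicative.toAdd n) * (ζ : D.G) * (a ^ (Multiplicative.toAdd m) * (ξ : D.G))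
    rw [zpow_add, mul_assoc, mul_assoc, ← mul_assoc (a ^ Multiplicative.toAdd m) (ζ : D.G),
      ← Cyc_com D ζ.2, mul_assoc]

theorem cycHom_inj (D : DG) {a : D.G} (ha : ¬ IsOfFinOrder a) :
    Function.Injective (cycHom D a) := by
  rw [injective_iff_map_eq_one]
  rintro ⟨n, ζ⟩ h
  have h0 : a ^ (Multiplicative.toAdd n) * (ζ : D.G) = 1 := h
  have h1 : a ^ (Multiplicative.toAdd n) = (ζ : D.G)⁻¹ := eq_inv_of_mul_eq_one_left h0
  have h2 : (ζ : D.G)⁻¹ ∈ Subgroup.zpowers D.z := inv_mem ζ.2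
  rw [← h1] at h2
  have hn : Multiplicative.toAdd n = 0 := by
    by_contra hn
    have h3 : a ^ (Multiplicative.toAdd n).natAbs ∈ Subgroup.zpowers D.z := by
      rcases Int.natAbs_eq (Multiplicative.toAdd n) with h4 | h4
      · rw [← zpow_natCast, ← h4]
        exact h2
      · have h5 : (((Multiplicative.toAdd n).natAbs : ℕ) : ℤ) = - Multiplicative.toAdd n := by
          omega
        rw [← zpow_natCast, h5, zpow_neg]
        exact inv_mem h2
    exact D.pow_notMem ha (Int.natAbs_pos.2 hn) h3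
  rw [hn, zpow_zero, one_mul] at h0
  refine Prod.ext ?_ (Subtype.ext h0)
  change n = 1
  exact Multiplicative.toAdd.injective hn

/-- the subgroup generated by `a` and `z` -/
def cyc (D : DG) (a : D.G) : Subgroup D.G := (cycHom D a).range

theorem mem_cyc {D : DG} {a x : D.G} :
    x ∈ cyc D a ↔ ∃ (n : ℤ) (ζ : D.G), ζ ∈ Subgroup.zpowers D.z ∧ x = a ^ n * ζ := by
  constructor
  · rintro ⟨⟨n, ζ⟩, h⟩
    exact ⟨Multiplicative.toAdd n, ζ, ζ.2, h.symm⟩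
  · rintro ⟨n, ζ, hζ, h⟩
    exact ⟨⟨Multiplicative.ofAdd n, ⟨ζ, hζ⟩⟩, h.symm⟩

theorem cyc_le (D : DG) (a : D.G) :
    cyc D a ≤ Subgroup.closure ({a} ∪ (Subgroup.zpowers D.z : Set D.G)) := by
  intro x hx
  obtain ⟨n, ζ, hζ, rfl⟩ := mem_cyc.1 hx
  refine mul_mem (zpow_mem (Subgroup.subset_closure ?_) n) (Subgroup.subset_closure ?_)
  · exact Or.inl rfl
  · exact Or.inr hζ

theorem a_mem_cyc (D : DG) (a : D.G) : a ∈ cyc D a :=
  mem_cyc.2 ⟨1, 1, one_mem _, by rw [zpow_one, mul_one]⟩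

theorem z_mem_cyc (D : DG) (a : D.G) {ζ : D.G} (hζ : ζ ∈ Subgroup.zpowers D.z) :
    ζ ∈ cyc D a :=
  mem_cyc.2 ⟨0, ζ, hζ, by rw [zpow_zero, one_mul]⟩

/-- `a ^ n * ζ ↦ b ^ n * ζ` -/
noncomputable def cycEquiv (D : DG) {a b : D.G} (ha : ¬ IsOfFinOrder a)
    (hb : ¬ IsOfFinOrder b) : cyc D a ≃* cyc D b :=
  (MonoidHom.ofInjective (cycHom_inj D ha)).symm.trans (MonoidHom.ofInjective (cycHom_inj D hb))

private theorem Cyc_eq (D : DG) {a b : D.G} (ha : ¬ IsOfFinOrder a) (hb : ¬ IsOfFinOrder b)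
    (p : Multiplicative ℤ × Subgroup.zpowers D.z) (x : cyc D a) (hx : (x : D.G) = cycHom D a p) :
    ((cycEquiv D ha hb x : cyc D b) : D.G) = cycHom D b p := by
  have h1 : x = MonoidHom.ofInjective (cycHom_inj D ha) p := Subtype.ext hx
  rw [h1]
  change ((MonoidHom.ofInjective (cycHom_inj D hb) ((MonoidHom.ofInjective (cycHom_inj D ha)).symm
    (MonoidHom.ofInjective (cycHom_inj D ha) p)) : (cycHom D b).range) : D.G) = cycHom D b p
  rw [MulEquiv.symm_apply_apply]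
  rfl

theorem cycEquiv_a (D : DG) {a b : D.G} (ha : ¬ IsOfFinOrder a) (hb : ¬ IsOfFinOrder b) :
    ((cycEquiv D ha hb ⟨a, a_mem_cyc D a⟩ : cyc D b) : D.G) = b := by
  have h := Cyc_eq D ha hb (Multiplicative.ofAdd 1, 1) ⟨a, a_mem_cyc D a⟩ (by
    change a = a ^ (1 : ℤ) * 1
    rw [zpow_one, mul_one])
  rw [h]
  change b ^ (1 : ℤ) * 1 = b
  rw [zpow_one, mul_one]

theorem cycEquiv_z (D : DG) {a b : D.G} (ha : ¬ IsOfFinOrder a) (hb : ¬ IsOfFinOrder b)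
    {ζ : D.G} (hζ : ζ ∈ Subgroup.zpowers D.z) (h : ζ ∈ cyc D a) :
    ((cycEquiv D ha hb ⟨ζ, h⟩ : cyc D b) : D.G) = ζ := by
  have h1 := Cyc_eq D ha hb (1, ⟨ζ, hζ⟩) ⟨ζ, h⟩ (by
    change ζ = a ^ (0 : ℤ) * ζ
    rw [zpow_zero, one_mul])
  rw [h1]
  change b ^ (0 : ℤ) * ζ = ζ
  rw [zpow_zero, one_mul]

end Pool.Agent.H32.SQ
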