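import Pool.Agent.H32.SQ.SofM
import Pool.Agent.H32.SQ.Cyc
import Mathlib.Algebra.Colimit.DirectLimit

/-!
PIECE SQ-10: direct limits of sequences.

PROOF.
For `m ≤ n` let `F m n : D m →* D n` be the composition of the maps `(f k).f`, `m ≤ k < n` (define it by `Nat.leRec` or as the
composition over `n - m` steps; it satisfies `F n n = id`, `F m (n + 1) = (f n).f.comp (F m n)`, injective, `F m n (D m).z = (D n).z`).
Either use Mathlib's `DirectLimit` (`Mathlib.Algebra.Colimit.DirectLimit`, group structure there, `DirectLimit.mk_injective`) or the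
following: `P := (∀ n, (D n).G) ⧸ U`, `U` the normal subgroup of the sequences which are eventually `1`;
`g m : D m →* P`, `x ↦` the class of `n ↦ F m n x` for `m ≤ n`, `1` for `n < m`; it is an injective homomorphism and
`g (m + 1) (f m x) = g m x`.  `E.G := ` the subgroup `⨆ m, (g m).range` of `P`; the ranges are increasing, so every element of it is
in some range (`Subgroup.mem_iSup_of_directed`).  `E.z := g 0 z`; it is the image of `(D n).z` for all `n`, so it is central.
Countable: a countable union of countable sets.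
Soficity: by `sofMod_of_isSofic` it is enough that `E.G ⧸ zpowers E.z` is sofic; by `isSofic_local`: a finite set of classes is contained in the image
of the injective homomorphism `(D n).G ⧸ zpowers (D n).z → E.G ⧸ zpowers E.z` (`QuotientGroup.map`) for large `n`; this group is sofic by
`isSofic_of_sofMod`.  (`DG.zpowers_normal` for the instances.)
-/

open Filter

namespace Pool.Agent.H32.SQ

open Pool.Agent.Helper70.Sofic

/-- the composition of the embeddings -/
private def limF (D : ℕ → DG) (f : ∀ n, Emb (D n) (D (n + 1))) (m n : ℕ) (h : m ≤ n) :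
    Emb (D m) (D n) :=
  Nat.leRecOn h (fun {k} (g : Emb (D m) (D k)) => (f k).comp g) (Emb.refl (D m))

private theorem limF_self (D : ℕ → DG) (f : ∀ n, Emb (D n) (D (n + 1))) (n : ℕ) :
    limF D f n n le_rfl = Emb.refl (D n) :=
  Nat.leRecOn_self _

private theorem limF_succ (D : ℕ → DG) (f : ∀ n, Emb (D n) (D (n + 1))) {m n : ℕ} (h : m ≤ n)
    (h' : m ≤ n + 1) : limF D f m (n + 1) h' = (f n).comp (limF D f m n h) :=
  Nat.leRecOn_succ h _

private theorem limF_trans (D : ℕ → DG) (f : ∀ n, Emb (D n) (D (n + 1))) {i j : ℕ} (hij : i ≤ j)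
    (x : (D i).G) (k : ℕ) (hjk : j ≤ k) :
    (limF D f j k hjk).f ((limF D f i j hij).f x) = (limF D f i k (hij.trans hjk)).f x := by
  induction k, hjk using Nat.le_induction with
  | base =>
    rw [limF_self]
    rfl
  | succ k hk ih =>
    rw [limF_succ D f hk, limF_succ D f (hij.trans hk)]
    change (f k).f ((limF D f j k hk).f _) = (f k).f _
    rw [ih]

private theorem limF_sys (D : ℕ → DG) (f : ∀ n, Emb (D n) (D (n + 1))) :
    DirectedSystem (fun n => (D n).G) (fun i j h => (limF D f i j h).f) where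
  map_self := by
    intro i x
    rw [limF_self]
    rfl
  map_map := by
    intro k j i hij hjk x
    exact limF_trans D f hij x k hjk

attribute [local instance] limF_sys

/-- the limit -/
private abbrev LimT (D : ℕ → DG) (f : ∀ n, Emb (D n) (D (n + 1))) : Type :=
  DirectLimit (fun n => (D n).G) (fun i j h => (limF D f i j h).f)

/-- the maps to the limit -/
private noncomputable def limG (D : ℕ → DG) (f : ∀ n, Emb (D n) (D (n + 1))) (n : ℕ) :
    (D n).G →* LimT D f where
  toFun x := Quotient.mk _ ⟨n, x⟩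
  map_one' := (DirectLimit.one_def (f := fun i j h => (limF D f i j h).f) n).symm
  map_mul' x y := (DirectLimit.mul_def (f := fun i j h => (limF D f i j h).f) n x y).symm

private theorem limG_inj (D : ℕ → DG) (f : ∀ n, Emb (D n) (D (n + 1))) (n : ℕ) :
    Function.Injective (limG D f n) :=
  DirectLimit.mk_injective (fun i j h => (limF D f i j h).f) (fun i j h => (limF D f i j h).inj) n

private theorem limG_limF (D : ℕ → DG) (f : ∀ n, Emb (D n) (D (n + 1))) {m n : ℕ} (h : m ≤ n)
    (x : (D m).G) : limG D f n ((limF D f m n h).f x) = limG D f m x :=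
  (Quotient.sound (DirectLimit.r_of_le (fun i j h => (limF D f i j h).f)
    (⟨m, x⟩ : Σ i, (D i).G) n h)).symm

private theorem limG_succ (D : ℕ → DG) (f : ∀ n, Emb (D n) (D (n + 1))) (n : ℕ)
    (x : (D n).G) : limG D f (n + 1) ((f n).f x) = limG D f n x := by
  have h := limG_limF D f (Nat.le_succ n) x
  rw [limF_succ D f le_rfl, limF_self] at h
  exact h

private theorem limG_surj (D : ℕ → DG) (f : ∀ n, Emb (D n) (D (n + 1))) (y : LimT D f) :
    ∃ n x, limG D f n x = y := by
  obtain ⟨n, x, h⟩ := DirectLimit.exists_eq_mk (fun i j h => (limF D f i j h).f) y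
  exact ⟨n, x, h.symm⟩

private theorem limG_z (D : ℕ → DG) (f : ∀ n, Emb (D n) (D (n + 1))) (n : ℕ) :
    limG D f n (D n).z = limG D f 0 (D 0).z := by
  induction n with
  | zero => rfl
  | succ n ih => rw [← (f n).map_z, limG_succ, ih]

private theorem limG_finset (D : ℕ → DG) (f : ∀ n, Emb (D n) (D (n + 1)))
    (s : Finset (LimT D f)) : ∃ n, ∀ y ∈ s, ∃ x, limG D f n x = y := by
  classical
  induction s using Finset.induction_on with
  | empty => exact ⟨0, fun y hy => absurd hy (Finset.notMem_empty _)⟩
  | insert a s ha ih =>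
    obtain ⟨n, hn⟩ := ih
    obtain ⟨m, x, hx⟩ := limG_surj D f a
    refine ⟨max n m, fun y hy => ?_⟩
    rw [Finset.mem_insert] at hy
    rcases hy with rfl | hy
    · exact ⟨(limF D f m (max n m) (le_max_right _ _)).f x, by rw [limG_limF, hx]⟩
    · obtain ⟨x', hx'⟩ := hn y hy
      exact ⟨(limF D f n (max n m) (le_max_left _ _)).f x', by rw [limG_limF, hx']⟩

private theorem lim_sofic (D : ℕ → DG) (f : ∀ n, Emb (D n) (D (n + 1))) (z : LimT D f)
    (hz : ∀ n, limG D f n (D n).z = z) [(Subgroup.zpowers z).Normal] :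
    IsSofic (LimT D f ⧸ Subgroup.zpowers z) := by
  classical
  refine isSofic_local fun F => ?_
  obtain ⟨n, hn⟩ := limG_finset D f (F.image Quotient.out)
  haveI : (Subgroup.zpowers (D n).z).Normal := (D n).zpowers_normal
  have h1 : Subgroup.zpowers (D n).z ≤ (Subgroup.zpowers z).comap (limG D f n) := by
    rw [Subgroup.zpowers_le, Subgroup.mem_comap, hz]
    exact Subgroup.mem_zpowers z
  refine ⟨(D n).G ⧸ Subgroup.zpowers (D n).z, inferInstance,
    QuotientGroup.map _ _ (limG D f n) h1, ?_, isSofic_of_sofMod _ (D n).sof, ?_⟩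
  · rw [injective_iff_map_eq_one]
    intro q hq
    obtain ⟨x, rfl⟩ := QuotientGroup.mk_surjective q
    rw [QuotientGroup.map_mk, QuotientGroup.eq_one_iff, Subgroup.mem_zpowers_iff] at hq
    obtain ⟨k, hk⟩ := hq
    rw [← hz n, ← map_zpow] at hk
    rw [QuotientGroup.eq_one_iff, Subgroup.mem_zpowers_iff]
    exact ⟨k, limG_inj D f n hk⟩
  · intro g hg
    obtain ⟨x, hx⟩ := hn g.out (Finset.mem_image_of_mem _ hg)
    refine ⟨(x : (D n).G ⧸ Subgroup.zpowers (D n).z), ?_⟩
    rw [QuotientGroup.map_mk, hx]
    exact Quotient.out_eq g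

theorem exists_lim (D : ℕ → DG) (f : ∀ n, Emb (D n) (D (n + 1))) :
    ∃ (E : DG) (g : ∀ n, Emb (D n) E), (∀ n x, (g (n + 1)).f ((f n).f x) = (g n).f x) ∧
      ∀ y : E.G, ∃ n x, (g n).f x = y := by
  have hcen : ∀ y : LimT D f, limG D f 0 (D 0).z * y = y * limG D f 0 (D 0).z := by
    intro y
    obtain ⟨n, x, rfl⟩ := limG_surj D f y
    rw [← limG_z D f n, ← map_mul, ← map_mul, (D n).cen]
  have hnor : (Subgroup.zpowers (limG D f 0 (D 0).z)).Normal := by
    refine ⟨fun n hn g => ?_⟩
    obtain ⟨k, rfl⟩ := Subgroup.mem_zpowers_iff.1 hn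
    have h1 : Commute (limG D f 0 (D 0).z) g := hcen g
    have h2 : g * (limG D f 0 (D 0).z) ^ k = (limG D f 0 (D 0).z) ^ k * g := (h1.zpow_left k).symm
    rw [h2, mul_inv_cancel_right]
    exact Subgroup.zpow_mem_zpowers _ _
  have hcnt : Countable (LimT D f) := by
    have h1 : Function.Surjective (fun p : Σ n, (D n).G => limG D f p.1 p.2) := by
      intro y
      obtain ⟨n, x, h⟩ := limG_surj D f y
      exact ⟨⟨n, x⟩, h⟩
    exact h1.countable
  let E : DG :=
    { G := LimT D f
      z := limG D f 0 (D 0).z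
      ne := by
        intro h
        rw [← map_one (limG D f 0)] at h
        exact (D 0).ne (limG_inj D f 0 h)
      sq := by rw [← map_mul, (D 0).sq, map_one]
      cen := hcen
      sof := sofMod_of_isSofic _ (lim_sofic D f _ (limG_z D f)) }
  let g : ∀ n, Emb (D n) E := fun n =>
    { f := limG D f n
      inj := limG_inj D f n
      map_z := limG_z D f n }
  exact ⟨E, g, fun n x => limG_succ D f n x, fun y => limG_surj D f y⟩

end Pool.Agent.H32.SQ
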