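import Pool.Agent.H32.SQ.Step
import Pool.Agent.H32.SQ.Lim

/-!
PIECE SQ-11: closing off.

PROOF.
`exists_all`: `D.G` is countable and nonempty: let `p : ℕ → D.G × D.G` be surjective (`exists_surjective_nat`).  Recursion on `n` in the type
`Σ E : DG, Emb D E`: `(E₀, f₀) := (D, refl)`, `(E_{n+1}, f_{n+1})`: if `a, b` (`p n = (a, b)`) have infinite order, so have `f_n a`, `f_n b` (`f_n` is
injective: `MonoidHom.isOfFinOrder` or `isOfFinOrder_iff_pow_eq_one`), take `step_conj` for them (choice) and compose; otherwise `E_{n+1} := E_n`.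
Let `g_n : Emb E_n E_{n+1}` be the transition maps, `f_{n+1} = g_n.comp f_n`.  `exists_lim` gives `E'`; all pairs of elements of infinite order of
`D` become conjugate in it (`IsConj.map` or `MonoidHom.map_isConj`).  Then apply `step_free` to `E'`.
`exists_closed`: iterate `exists_all`: `D_0 := D`, `D_{n+1}` from `exists_all D_n` (choice), and `exists_lim`.  Every element (every pair of elements) of the
limit comes from some `D_n`, its properties hold in `D_{n+1}`, so in the limit (elements of infinite order stay so under injective maps;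
an element of the limit which has infinite order has infinite order in `D_n`; `g ∉ ⟨z⟩` in the limit iff in `D_n`).
-/

namespace Pool.Agent.H32.SQ

private theorem close_inf {D E : DG} (f : Emb D E) {x : D.G} (hx : ¬ IsOfFinOrder x) :
    ¬ IsOfFinOrder (f.f x) := by
  intro h
  apply hx
  rw [isOfFinOrder_iff_pow_eq_one] at h ⊢
  obtain ⟨n, hn, h1⟩ := h
  refine ⟨n, hn, f.inj ?_⟩
  rw [map_pow, h1, map_one]

private theorem close_inf' {D E : DG} (f : Emb D E) {x : D.G} (hx : ¬ IsOfFinOrder (f.f x)) :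
    ¬ IsOfFinOrder x := fun h => hx (f.f.isOfFinOrder h)

private theorem close_z {D E : DG} (f : Emb D E) {x : D.G} :
    f.f x ∈ Subgroup.zpowers E.z ↔ x ∈ Subgroup.zpowers D.z := by
  constructor
  · intro h
    obtain ⟨k, hk⟩ := Subgroup.mem_zpowers_iff.1 h
    refine Subgroup.mem_zpowers_iff.2 ⟨k, f.inj ?_⟩
    rw [map_zpow, f.map_z, hk]
  · intro h
    obtain ⟨k, hk⟩ := Subgroup.mem_zpowers_iff.1 h
    refine Subgroup.mem_zpowers_iff.2 ⟨k, ?_⟩
    rw [← hk, map_zpow, f.map_z]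

/-- iteration of a step, and the limit -/
private theorem close_chain (D : DG)
    (P : ℕ → ∀ (E : DG) (_ : Emb D E) (E' : DG) (_ : Emb E E'), Prop)
    (h : ∀ n E f, ∃ (E' : DG) (g : Emb E E'), P n E f E' g) :
    ∃ (X : ℕ → DG) (F : ∀ n, Emb D (X n)) (g : ∀ n, Emb (X n) (X (n + 1))) (E : DG)
      (G : ∀ n, Emb (X n) E), (∀ n, P n (X n) (F n) (X (n + 1)) (g n)) ∧
      (∀ n x, (G (n + 1)).f ((g n).f x) = (G n).f x) ∧
      (∀ n x, (G n).f ((F n).f x) = (G 0).f ((F 0).f x)) ∧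
      ∀ y : E.G, ∃ n, ∀ N, n ≤ N → ∃ x, (G N).f x = y := by
  choose nxt emb hP using h
  let Y : ℕ → Σ E : DG, Emb D E := fun n =>
    Nat.rec (motive := fun _ => Σ E : DG, Emb D E) ⟨D, Emb.refl D⟩
      (fun n s => ⟨nxt n s.1 s.2, (emb n s.1 s.2).comp s.2⟩) n
  let g : ∀ n, Emb (Y n).1 (Y (n + 1)).1 := fun n => emb n (Y n).1 (Y n).2
  obtain ⟨E, G, hG, hs⟩ := exists_lim (fun n => (Y n).1) g
  refine ⟨fun n => (Y n).1, fun n => (Y n).2, g, E, G, fun n => hP n (Y n).1 (Y n).2, hG, ?_, ?_⟩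
  · intro n x
    induction n with
    | zero => rfl
    | succ n ih =>
      rw [← ih]
      exact hG n ((Y n).2.f x)
  · intro y
    obtain ⟨n, x, hx⟩ := hs y
    refine ⟨n, fun N hN => ?_⟩
    induction N, hN using Nat.le_induction with
    | base => exact ⟨x, hx⟩
    | succ N _ ih =>
      obtain ⟨x', hx'⟩ := ih
      exact ⟨(g N).f x', (hG N x').trans hx'⟩

theorem exists_all (D : DG) : ∃ (E : DG) (f : Emb D E),
    (∀ a b : D.G, ¬ IsOfFinOrder a → ¬ IsOfFinOrder b → IsConj (f.f a) (f.f b)) ∧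
    ∃ t : E.G, ¬ IsOfFinOrder t ∧ (∀ g : D.G, ¬ IsOfFinOrder (f.f g * t)) ∧
      ∀ g : D.G, g ∉ Subgroup.zpowers D.z → ¬ IsOfFinOrder (f.f g * t * (f.f g)⁻¹ * t⁻¹) := by
  classical
  obtain ⟨p, hp⟩ := exists_surjective_nat (D.G × D.G)
  obtain ⟨X, F, g, E, G, hP, hG, hF, -⟩ := close_chain D
    (fun n E f E' g => ¬ IsOfFinOrder (p n).1 → ¬ IsOfFinOrder (p n).2 →
      IsConj (g.f (f.f (p n).1)) (g.f (f.f (p n).2))) (by
    intro n E f
    by_cases h1 : IsOfFinOrder (p n).1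
    · exact ⟨E, Emb.refl E, fun h => absurd h1 h⟩
    by_cases h2 : IsOfFinOrder (p n).2
    · exact ⟨E, Emb.refl E, fun _ h => absurd h2 h⟩
    obtain ⟨E', g, hg⟩ := step_conj E (f.f (p n).1) (f.f (p n).2) (close_inf f h1) (close_inf f h2)
    exact ⟨E', g, fun _ _ => hg⟩)
  let K : Emb D E := (G 0).comp (F 0)
  obtain ⟨E', f', t, ht, ht1, ht2⟩ := step_free E
  refine ⟨E', f'.comp K, ?_, t, ht, fun x => ht1 (K.f x), fun x hx => ht2 (K.f x) ?_⟩
  · intro a b ha hb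
    obtain ⟨n, hn⟩ := hp (a, b)
    have h1 := hP n
    rw [hn] at h1
    have h2 := (G (n + 1)).f.map_isConj (h1 ha hb)
    rw [hG, hG, hF n (a, b).1, hF n (a, b).2] at h2
    exact f'.f.map_isConj h2
  · rwa [close_z]

theorem exists_closed (D : DG) : ∃ (E : DG) (_ : Emb D E),
    (∀ a b : E.G, ¬ IsOfFinOrder a → ¬ IsOfFinOrder b → IsConj a b) ∧
    (∀ g : E.G, ∃ t, ¬ IsOfFinOrder t ∧ ¬ IsOfFinOrder (g * t)) ∧
    ∀ g : E.G, g ∉ Subgroup.zpowers E.z → ∃ t, ¬ IsOfFinOrder (g * t * g⁻¹ * t⁻¹) := by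
  obtain ⟨X, F, g, E, G, hP, hG, -, hs⟩ := close_chain D
    (fun _ E _ E' f => (∀ a b : E.G, ¬ IsOfFinOrder a → ¬ IsOfFinOrder b →
      IsConj (f.f a) (f.f b)) ∧
      ∃ t : E'.G, ¬ IsOfFinOrder t ∧ (∀ g : E.G, ¬ IsOfFinOrder (f.f g * t)) ∧
        ∀ g : E.G, g ∉ Subgroup.zpowers E.z → ¬ IsOfFinOrder (f.f g * t * (f.f g)⁻¹ * t⁻¹))
    (fun _ E _ => exists_all E)
  refine ⟨E, (G 0).comp (F 0), ?_, ?_, ?_⟩
  · intro a b ha hb
    obtain ⟨n, hn⟩ := hs a
    obtain ⟨m, hm⟩ := hs b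
    obtain ⟨x, rfl⟩ := hn (max n m) (le_max_left _ _)
    obtain ⟨y, rfl⟩ := hm (max n m) (le_max_right _ _)
    have h1 := (G (max n m + 1)).f.map_isConj
      ((hP (max n m)).1 x y (close_inf' _ ha) (close_inf' _ hb))
    rwa [hG, hG] at h1
  · intro y
    obtain ⟨n, hn⟩ := hs y
    obtain ⟨x, rfl⟩ := hn n le_rfl
    obtain ⟨t, ht, ht1, -⟩ := (hP n).2
    refine ⟨(G (n + 1)).f t, close_inf _ ht, ?_⟩
    rw [← hG, ← map_mul]
    exact close_inf _ (ht1 x)
  · intro y hy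
    obtain ⟨n, hn⟩ := hs y
    obtain ⟨x, rfl⟩ := hn n le_rfl
    obtain ⟨t, -, -, ht2⟩ := (hP n).2
    refine ⟨(G (n + 1)).f t, ?_⟩
    rw [close_z] at hy
    have h3 := close_inf (G (n + 1)) (ht2 x hy)
    rw [map_mul, map_mul, map_mul, map_inv, map_inv, hG] at h3
    exact h3

end Pool.Agent.H32.SQ
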