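import Pool.Agent.H96.DC.Basic

/-!
# Q1 for double covers of simple groups: definitions

Families of finite sets along a filter, small families of subsets, approximate actions.
-/

open Filter

namespace Pool.Agent.H32.SQ

/-- a family of finite nonempty sets along a filter -/
structure Fam where
  /-- the index set -/
  I : Type
  /-- the filter -/
  l : Filter I
  /-- the finite sets -/
  X : I → Type
  [ne : l.NeBot]
  [fin : ∀ i, Finite (X i)]
  [non : ∀ i, Nonempty (X i)]

attribute [instance] Fam.ne Fam.fin Fam.non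

/-- the sets `S i` have density tending to zero -/
def Sm (F : Fam) (S : ∀ i, Set (F.X i)) : Prop :=
  ∀ ε : ℝ, 0 < ε → ∀ᶠ i in F.l, ((S i).ncard : ℝ) ≤ ε * Nat.card (F.X i)

/-- the same sets, indexed by `ℕ × I`: first `i`, then `m` tends to infinity -/
def Fam.cur (F : Fam) : Fam where
  I := ℕ × F.I
  l := (atTop : Filter ℕ).curry F.l
  X := fun p => F.X p.2
  ne := by
    rw [← Filter.frequently_true_iff_neBot, Filter.frequently_curry_iff]
    simp only [Filter.frequently_true_iff_neBot, Filter.frequently_const]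
    exact F.ne

/-- products with finite sets -/
def Fam.prod (F : Fam) (Q : F.I → Type) [∀ i, Finite (Q i)] [∀ i, Nonempty (Q i)] : Fam where
  I := F.I
  l := F.l
  X := fun i => F.X i × Q i

/-- approximate actions of `Γ` on the finite sets, with kernel `K`, free modulo `K` -/
structure SofMap (F : Fam) {Γ : Type} [Group Γ] (K : Subgroup Γ)
    (σ : Γ → ∀ i, Equiv.Perm (F.X i)) : Prop where
  mul : ∀ g h, Sm F (fun i => {x | σ (g * h) i x ≠ σ g i (σ h i x)})
  fix : ∀ g, g ∉ K → Sm F (fun i => {x | σ g i x = x})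
  ker : ∀ g, g ∈ K → Sm F (fun i => {x | σ g i x ≠ x})

/-- `Γ` is sofic modulo `K` -/
def SofMod {Γ : Type} [Group Γ] (K : Subgroup Γ) : Prop :=
  ∃ (F : Fam) (σ : Γ → ∀ i, Equiv.Perm (F.X i)), SofMap F K σ

/-- pieces: `T` maps the piece `τ = k` to the piece `τ' = k`; the elements of `S`, which generate `A`, almost
preserve the pieces and `T` is almost equivariant for them; elements outside `A`, `B` leave the pieces -/
structure Tiling (F : Fam) {Γ : Type} [Group Γ] (σ : Γ → ∀ i, Equiv.Perm (F.X i))
    (A B : Subgroup Γ) (φ : A ≃* B) (S : Set Γ) (κ : F.I → Type) (T : ∀ i, Equiv.Perm (F.X i))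
    (τ τ' : ∀ i, F.X i → κ i) : Prop where
  gen : A ≤ Subgroup.closure S
  sub : ∀ a ∈ S, a ∈ A
  conj : ∀ a : A, (a : Γ) ∈ S → Sm F (fun i => {x | T i (σ a i x) ≠ σ (φ a) i (T i x)})
  inv : ∀ a ∈ S, Sm F (fun i => {x | τ i (σ a i x) ≠ τ i x})
  lab : ∀ i x, τ' i (T i x) = τ i x
  sepA : ∀ g, g ∉ A → Sm F (fun i => {x | τ i (σ g i x) = τ i x})
  sepB : ∀ g, g ∉ B → Sm F (fun i => {x | τ' i (σ g i x) = τ' i x})

/-- countable groups with a central element `z` of order two, sofic modulo `z` -/
structure DG where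
  /-- the group -/
  G : Type
  [grp : Group G]
  [cnt : Countable G]
  /-- the central element -/
  z : G
  ne : z ≠ 1
  sq : z * z = 1
  cen : ∀ g, z * g = g * z
  sof : SofMod (Subgroup.zpowers z)

attribute [instance] DG.grp DG.cnt

/-- embeddings -/
structure Emb (D E : DG) where
  /-- the homomorphism -/
  f : D.G →* E.G
  inj : Function.Injective f
  map_z : f D.z = E.z

/-- composition -/
def Emb.comp {D E E' : DG} (g : Emb E E') (f : Emb D E) : Emb D E' where
  f := g.f.comp f.f
  inj := g.inj.comp f.inj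
  map_z := by
    change g.f (f.f D.z) = E'.z
    rw [f.map_z, g.map_z]

/-- identity -/
def Emb.refl (D : DG) : Emb D D where
  f := MonoidHom.id D.G
  inj := fun _ _ h => h
  map_z := rfl

end Pool.Agent.H32.SQ
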