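import Mathlib

/-!
PIECE SQ-12: simplicity of the limit modulo `z`.

PROOF.
`normal_top`: let `M` be normal, `g ∈ M`, `g ∉ ⟨z⟩`.  Some `u := g * t * g⁻¹ * t⁻¹ = g * (t * g⁻¹ * t⁻¹) ∈ M` has infinite order.  For `h : G` there is `s` with
`s` and `h * s` of infinite order, so `s` and `h * s` are conjugate to `u` and in `M`, and `h = (h * s) * s⁻¹ ∈ M`.
`infinite`: by `h2` for `g = 1` there is `t` of infinite order; it is conjugate to `t * t`: `t * t = s * t * s⁻¹`, so `t = s * t * s⁻¹ * t⁻¹` is in the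
commutator subgroup, and not in `⟨z⟩` (which is finite).  So `commutator G = ⊤` by `normal_top`.
`centre`: `⟨z⟩ ≤ center`; if they are different then `center = ⊤` by `normal_top`, so the commutator subgroup is trivial, `⊤ = ⊥`, but `z ≠ 1`.
`IsSimpleGroup (G ⧸ center)`: nontrivial since `center ≠ ⊤`; a normal subgroup of the quotient has a normal preimage `M` containing the centre; if
`M ≤ center` it is trivial, otherwise `M = ⊤`.
`Nat.card (center G) = 2`: the centre is `⟨z⟩`, `z` has order two.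
-/

namespace Pool.Agent.H32.SQ

open scoped commutatorElement

theorem normal_top {G : Type} [Group G] {Z : Subgroup G}
    (h1 : ∀ a b : G, ¬ IsOfFinOrder a → ¬ IsOfFinOrder b → IsConj a b)
    (h2 : ∀ g : G, ∃ t, ¬ IsOfFinOrder t ∧ ¬ IsOfFinOrder (g * t))
    (h3 : ∀ g : G, g ∉ Z → ∃ t, ¬ IsOfFinOrder (g * t * g⁻¹ * t⁻¹)) (M : Subgroup G) [M.Normal] {g : G}
    (hg : g ∈ M) (hg' : g ∉ Z) : M = ⊤ := by
  obtain ⟨t, ht⟩ := h3 g hg'
  have hn : M.Normal := inferInstance
  have hu : g * t * g⁻¹ * t⁻¹ ∈ M := by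
    have h4 : t * g⁻¹ * t⁻¹ ∈ M := hn.conj_mem g⁻¹ (M.inv_mem hg) t
    have h5 := M.mul_mem hg h4
    have h6 : g * t * g⁻¹ * t⁻¹ = g * (t * g⁻¹ * t⁻¹) := by group
    rw [h6]
    exact h5
  have key : ∀ s : G, ¬ IsOfFinOrder s → s ∈ M := by
    intro s hs
    obtain ⟨c, hc⟩ := isConj_iff.mp (h1 _ s ht hs)
    rw [← hc]
    exact hn.conj_mem _ hu c
  rw [eq_top_iff]
  intro h _
  obtain ⟨s, hs1, hs2⟩ := h2 h
  have h7 := M.mul_mem (key _ hs2) (M.inv_mem (key _ hs1))
  rwa [mul_inv_cancel_right] at h7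

theorem grp_main {G : Type} [Group G] {z : G} (hz : z ≠ 1) (hzz : z * z = 1)
    (hc : ∀ g, z * g = g * z)
    (h1 : ∀ a b : G, ¬ IsOfFinOrder a → ¬ IsOfFinOrder b → IsConj a b)
    (h2 : ∀ g : G, ∃ t, ¬ IsOfFinOrder t ∧ ¬ IsOfFinOrder (g * t))
    (h3 : ∀ g : G, g ∉ Subgroup.zpowers z → ∃ t, ¬ IsOfFinOrder (g * t * g⁻¹ * t⁻¹)) :
    Subgroup.center G = Subgroup.zpowers z ∧ Nat.card (Subgroup.center G) = 2 ∧
      commutator G = ⊤ ∧ IsSimpleGroup (G ⧸ Subgroup.center G) := by
  have hfin : IsOfFinOrder z := isOfFinOrder_iff_pow_eq_one.mpr ⟨2, by norm_num, by rw [pow_two, hzz]⟩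
  have hcom : commutator G = ⊤ := by
    obtain ⟨t, ht, -⟩ := h2 1
    have ht2 : ¬ IsOfFinOrder (t * t) := by
      intro h
      apply ht
      rw [← pow_two] at h
      rcases isOfFinOrder_pow.mp h with h | h
      · exact h
      · exact absurd h (by norm_num)
    obtain ⟨c, hc'⟩ := isConj_iff.mp (h1 t (t * t) ht ht2)
    have h4 : t = ⁅c, t⁆ := by
      rw [commutatorElement_def, hc', mul_inv_cancel_right]
    have h5 : t ∈ commutator G := by
      rw [h4]
      exact Subgroup.commutator_mem_commutator (Subgroup.mem_top c) (Subgroup.mem_top t)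
    refine normal_top h1 h2 h3 (commutator G) h5 ?_
    intro h6
    obtain ⟨n, hn⟩ := Subgroup.mem_zpowers_iff.mp h6
    exact ht (hn ▸ hfin.zpow)
  have hcen : Subgroup.center G = Subgroup.zpowers z := by
    refine le_antisymm ?_ ?_
    · intro g hg
      by_contra hg'
      have h4 := normal_top h1 h2 h3 (Subgroup.center G) hg hg'
      have h5 : commutator G = ⊥ := (commutator_eq_bot_iff_center_eq_top G).mpr h4
      rw [hcom] at h5
      have h6 : z ∈ (⊤ : Subgroup G) := Subgroup.mem_top z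
      rw [h5, Subgroup.mem_bot] at h6
      exact hz h6
    · rw [Subgroup.zpowers_le, Subgroup.mem_center_iff]
      intro g
      exact (hc g).symm
  refine ⟨hcen, ?_, hcom, ?_⟩
  · rw [hcen, Nat.card_zpowers]
    exact orderOf_eq_prime (by rw [pow_two, hzz]) hz
  · have hnt : Nontrivial (G ⧸ Subgroup.center G) := by
      rw [QuotientGroup.nontrivial_iff]
      intro h4
      have h5 : commutator G = ⊥ := (commutator_eq_bot_iff_center_eq_top G).mpr h4
      rw [hcom] at h5
      have h6 : z ∈ (⊤ : Subgroup G) := Subgroup.mem_top z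
      rw [h5, Subgroup.mem_bot] at h6
      exact hz h6
    refine ⟨fun H hH => ?_⟩
    by_cases h4 : H.comap (QuotientGroup.mk' (Subgroup.center G)) ≤ Subgroup.center G
    · left
      rw [eq_bot_iff]
      intro x hx
      obtain ⟨g, rfl⟩ := QuotientGroup.mk'_surjective (Subgroup.center G) x
      have h5 : g ∈ H.comap (QuotientGroup.mk' (Subgroup.center G)) := hx
      rw [Subgroup.mem_bot, QuotientGroup.mk'_apply, QuotientGroup.eq_one_iff]
      exact h4 h5
    · right
      obtain ⟨g, hg1, hg2⟩ := Set.not_subset.mp h4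
      have h5 : H.comap (QuotientGroup.mk' (Subgroup.center G)) = ⊤ :=
        normal_top h1 h2 h3 _ hg1 (by
          rw [← hcen]
          exact hg2)
      rw [eq_top_iff]
      intro x _
      obtain ⟨g, rfl⟩ := QuotientGroup.mk'_surjective (Subgroup.center G) x
      have h6 : g ∈ H.comap (QuotientGroup.mk' (Subgroup.center G)) := by
        rw [h5]
        exact Subgroup.mem_top g
      exact h6

end Pool.Agent.H32.SQ
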