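import Pool.Agent.H32.SQ.Close
import Pool.Agent.H32.SQ.Grp
import Pool.Agent.Helper70.Sofic.Final

/-!
Q1 for double covers of simple groups implies Q1.
-/

namespace Pool.Agent.H32.SQ

open Pool.Agent.Helper70.Sofic

theorem fg_countable {G : Type} [Group G] [Group.FG G] : Countable G := by
  obtain ⟨α, hα, φ, hφ⟩ :=
    Group.fg_iff_exists_freeGroup_hom_surjective_finite.1 (inferInstance : Group.FG G)
  have h1 : Countable (FreeGroup α) := by
    have : Countable (List (α × Bool)) := inferInstance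
    exact Quot.mk_surjective.countable
  exact hφ.countable

/-- every element is a commutator -/
theorem all_comm {G : Type} [Group G]
    (h1 : ∀ a b : G, ¬ IsOfFinOrder a → ¬ IsOfFinOrder b → IsConj a b)
    (h2 : ∀ g : G, ∃ t, ¬ IsOfFinOrder t ∧ ¬ IsOfFinOrder (g * t)) (g : G) :
    ∃ x y : G, g = x * y * x⁻¹ * y⁻¹ := by
  obtain ⟨t, ht, hgt⟩ := h2 g
  obtain ⟨c, hc⟩ := isConj_iff.mp (h1 _ _ ht hgt)
  refine ⟨c, t, ?_⟩
  rw [hc, mul_inv_cancel_right]

/-- every element is a product of four conjugates of `g`, `g⁻¹` -/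
theorem four_conj {G : Type} [Group G] {Z : Subgroup G}
    (h1 : ∀ a b : G, ¬ IsOfFinOrder a → ¬ IsOfFinOrder b → IsConj a b)
    (h2 : ∀ g : G, ∃ t, ¬ IsOfFinOrder t ∧ ¬ IsOfFinOrder (g * t))
    (h3 : ∀ g : G, g ∉ Z → ∃ t, ¬ IsOfFinOrder (g * t * g⁻¹ * t⁻¹)) (g : G) (hg : g ∉ Z) (h : G) :
    ∃ x y v w : G, h = (x * g * x⁻¹) * (y * g⁻¹ * y⁻¹) * (v * g * v⁻¹) * (w * g⁻¹ * w⁻¹) := by
  obtain ⟨t, ht⟩ := h3 g hg
  obtain ⟨s, hs1, hs2⟩ := h2 h
  obtain ⟨c, hc⟩ := isConj_iff.mp (h1 _ _ ht hs2)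
  obtain ⟨d, hd⟩ := isConj_iff.mp (h1 _ _ ht hs1)
  refine ⟨c, c * t, d * t, d, ?_⟩
  have h4 : h = (h * s) * s⁻¹ := by rw [mul_inv_cancel_right]
  rw [h4, ← hc, ← hd]
  group

/-- Embedding theorem. -/
theorem exists_embed {G : Type} [Group G] [Countable G] (N : Subgroup G) [N.Normal]
    (hN : Nat.card N = 2) (hS : IsSofic (G ⧸ N)) :
    ∃ (E : Type) (_ : Group E) (f : G →* E), Countable E ∧ Function.Injective f ∧
      N.map f = Subgroup.center E ∧ Nat.card (Subgroup.center E) = 2 ∧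
      IsSimpleGroup (E ⧸ Subgroup.center E) ∧
      (∀ g : E, g ∉ Subgroup.center E → ∀ h : E, ∃ x y v w : E,
        h = (x * g * x⁻¹) * (y * g⁻¹ * y⁻¹) * (v * g * v⁻¹) * (w * g⁻¹ * w⁻¹)) ∧
      (∀ g : E, ∃ x y : E, g = x * y * x⁻¹ * y⁻¹) ∧
      (∀ a b : E, ¬ IsOfFinOrder a → ¬ IsOfFinOrder b → IsConj a b) ∧
      IsSofic (E ⧸ Subgroup.center E) := by
  have hfin : Finite N := Nat.finite_of_card_ne_zero (by omega)
  obtain ⟨z, hz1, hzN, hzall⟩ : ∃ z : G, z ≠ 1 ∧ z ∈ N ∧ ∀ x ∈ N, x = 1 ∨ x = z := by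
    obtain ⟨x, y, hxy, huniv⟩ := Nat.card_eq_two_iff.1 hN
    rcases eq_or_ne x 1 with hx | hx
    · subst hx
      refine ⟨(y : G), fun h1 => hxy (Subtype.ext h1.symm), y.2, fun w hw => ?_⟩
      have h2 : (⟨w, hw⟩ : N) ∈ ({1, y} : Set N) := by rw [huniv]; trivial
      rcases h2 with h2 | h2
      · left; exact congrArg Subtype.val h2
      · right; exact congrArg Subtype.val h2
    · have hy : y = 1 := by
        have h2 : (1 : N) ∈ ({x, y} : Set N) := by rw [huniv]; trivial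
        rcases h2 with h2 | h2
        · exact absurd h2.symm hx
        · exact h2.symm
      subst hy
      refine ⟨(x : G), fun h1 => hx (Subtype.ext h1), x.2, fun w hw => ?_⟩
      have h2 : (⟨w, hw⟩ : N) ∈ ({x, 1} : Set N) := by rw [huniv]; trivial
      rcases h2 with h2 | h2
      · right; exact congrArg Subtype.val h2
      · left; exact congrArg Subtype.val h2
  have hzz : z * z = 1 := by
    rcases hzall _ (N.mul_mem hzN hzN) with h | h
    · exact h
    · exact absurd (mul_eq_left.1 h) hz1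
  have hcen : ∀ g, z * g = g * z := by
    intro g
    have h1 : g * z * g⁻¹ ∈ N := Subgroup.Normal.conj_mem inferInstance z hzN g
    rcases hzall _ h1 with h | h
    · exfalso
      apply hz1
      have h2 : g * z = g := mul_inv_eq_one.1 h
      exact mul_eq_left.1 h2
    · have h2 := mul_inv_eq_iff_eq_mul.1 h
      exact h2.symm
  have hNz : N = Subgroup.zpowers z := by
    ext x
    constructor
    · intro hx
      rcases hzall x hx with h | h
      · rw [h]
        exact Subgroup.one_mem _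
      · rw [h]
        exact Subgroup.mem_zpowers z
    · rintro ⟨n, rfl⟩
      exact N.zpow_mem hzN n
  subst hNz
  have hs : SofMod (Subgroup.zpowers z) := sofMod_of_isSofic _ hS
  let D : DG := { G := G, z := z, ne := hz1, sq := hzz, cen := hcen, sof := hs }
  obtain ⟨E, f, h1, h2, h3⟩ := exists_closed D
  obtain ⟨g1, g2, g3, g4⟩ := grp_main E.ne E.sq E.cen h1 h2 h3
  have hn : (Subgroup.zpowers E.z).Normal := E.zpowers_normal
  refine ⟨E.G, E.grp, f.f, E.cnt, f.inj, ?_, g2, g4,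
    four_conj h1 h2 (by rw [g1]; exact h3), all_comm h1 h2, h1, ?_⟩
  · rw [g1]
    change (Subgroup.zpowers D.z).map f.f = _
    rw [MonoidHom.map_zpowers, f.map_z]
  · have h4 := isSofic_of_sofMod (Subgroup.zpowers E.z) E.sof
    have h5 : ∀ (K : Subgroup E.G) [K.Normal], K = Subgroup.zpowers E.z → IsSofic (E.G ⧸ K) := by
      intro K _ hK
      subst hK
      exact h4
    exact h5 _ g1

end Pool.Agent.H32.SQ
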