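import Mathlib

/-!
PIECE SQ-2: finite groups generated by `κ` without short relations.

PROOF. Let `B` be the set of all lists `L : List (κ × Bool)` with `FreeGroup.IsReduced L` and `L.length ≤ m` (a finite
type, `List.finite_length_le` or an injection into functions).  `Q := Equiv.Perm B`.  For `k : κ` let `p w`: (`w.length < m`
and `w` does not start with `(k, false)`) or `w` starts with `(k, false)`; `q w`: (`w.length < m` and `w` does not start with
`(k, true)`) or `w` starts with `(k, true)`.  The map `{w // p w} → {w // q w}`: `w ↦ (k, true) :: w` in the first case, and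
`(k, false) :: w' ↦ w'` in the second case, is a bijection with the inverse given by the same formula with `true` and
`false` exchanged (check: the image of the first case is the second case of `q`; the image of the second case is
the first case of `q`: `w'` has length `< m` and does not start with `(k, true)` as `(k, false) :: w'` is reduced).  Extend it to a
permutation `s k` of `B` (`Equiv.extendSubtype`).  For a reduced list `L` with `L.length ≤ m` the product
applied to the empty list is `L` (induction on `L`: the tail of `L` is reduced and shorter; if `L = (k, true) :: L'` then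
`s k L' = L` since `L'` does not start with `(k, false)`; if `L = (k, false) :: L'` then `s k L = L'`, so `(s k)⁻¹ L' = L`).  So the
product is not `1` if `L ≠ []`.
-/

namespace Pool.Agent.H32.SQ

private theorem freeQ_tail {κ : Type} {a : κ × Bool} {L : List (κ × Bool)}
    (h : FreeGroup.IsReduced (a :: L)) : FreeGroup.IsReduced L := by
  cases L with
  | nil => exact FreeGroup.IsReduced.nil
  | cons b L => exact (FreeGroup.isReduced_cons_cons.1 h).2

private theorem freeQ_perm {B : Type} [Finite B] (r : B → B → Prop)
    (h1 : ∀ w v v', r w v → r w v' → v = v') (h2 : ∀ w w' v, r w v → r w' v → w = w') :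
    ∃ s : Equiv.Perm B, ∀ w v, r w v → s w = v := by
  classical
  have : Fintype B := Fintype.ofFinite B
  let f : B → B := fun w => if h : ∃ v, r w v then h.choose else w
  have hf : ∀ w v, r w v → f w = v := by
    intro w v hwv
    have h : ∃ v, r w v := ⟨v, hwv⟩
    have h3 : f w = h.choose := dif_pos h
    rw [h3]
    exact h1 w _ _ h.choose_spec hwv
  have hinj : Set.InjOn f {w | ∃ v, r w v} := by
    rintro w ⟨v, hv⟩ w' ⟨v', hv'⟩ he
    rw [hf w v hv, hf w' v' hv'] at he
    subst he
    exact h2 w w' v hv hv'
  obtain ⟨g, hg⟩ := Set.MapsTo.exists_equiv_extend_of_card_eq (t := (Finset.univ : Finset B))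
    (s := {w | ∃ v, r w v}) (f := f) Finset.card_univ.symm (fun _ _ => by simp) hinj
  refine ⟨g.trans (Equiv.subtypeUnivEquiv (fun _ => Finset.mem_univ _)), ?_⟩
  intro w v hwv
  have h3 := hg w ⟨v, hwv⟩
  rw [hf w v hwv] at h3
  exact h3

theorem exists_free_quot (κ : Type) [Finite κ] (m : ℕ) :
    ∃ (Q : Type) (_ : Group Q) (_ : Finite Q) (s : κ → Q), ∀ L : List (κ × Bool),
      FreeGroup.IsReduced L → L ≠ [] → L.length ≤ m →
      (L.map (fun p => if p.2 then s p.1 else (s p.1)⁻¹)).prod ≠ 1 := by
  classical
  let B := {L : List (κ × Bool) // FreeGroup.IsReduced L ∧ L.length ≤ m}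
  have hfin : Finite {L : List (κ × Bool) // L.length ≤ m} :=
    (List.finite_length_le (κ × Bool) m).to_subtype
  have hB : Finite B := by
    refine Finite.of_injective (β := {L : List (κ × Bool) // L.length ≤ m})
      (fun w => ⟨w.1, w.2.2⟩) ?_
    intro w w' h
    exact Subtype.ext (Subtype.mk.inj h)
  have key : ∀ k : κ, ∃ s : Equiv.Perm B, ∀ w v : B,
      (w.1 = (k, false) :: v.1 ∨ v.1 = (k, true) :: w.1) → s w = v := by
    intro k
    refine freeQ_perm (B := B) (fun w v => w.1 = (k, false) :: v.1 ∨ v.1 = (k, true) :: w.1) ?_ ?_
    · rintro w v v' (h | h) (h' | h')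
      · rw [h] at h'
        exact Subtype.ext (List.cons_injective h')
      · exfalso
        have h3 := v'.2.1
        rw [h', h] at h3
        have h4 := (FreeGroup.isReduced_cons_cons.1 h3).1 rfl
        exact absurd h4 (by simp)
      · exfalso
        have h3 := v.2.1
        rw [h, h'] at h3
        have h4 := (FreeGroup.isReduced_cons_cons.1 h3).1 rfl
        exact absurd h4 (by simp)
      · exact Subtype.ext (h.trans h'.symm)
    · rintro w w' v (h | h) (h' | h')
      · exact Subtype.ext (h.trans h'.symm)
      · exfalso
        have h3 := w.2.1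
        rw [h, h'] at h3
        have h4 := (FreeGroup.isReduced_cons_cons.1 h3).1 rfl
        exact absurd h4 (by simp)
      · exfalso
        have h3 := w'.2.1
        rw [h', h] at h3
        have h4 := (FreeGroup.isReduced_cons_cons.1 h3).1 rfl
        exact absurd h4 (by simp)
      · rw [h] at h'
        exact Subtype.ext (List.cons_injective h')
  choose s hs using key
  refine ⟨Equiv.Perm B, inferInstance, inferInstance, s, ?_⟩
  have main : ∀ (L : List (κ × Bool)) (hL : FreeGroup.IsReduced L) (hlen : L.length ≤ m),
      ((L.map (fun p => if p.2 then s p.1 else (s p.1)⁻¹)).prod : Equiv.Perm B)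
        ⟨[], FreeGroup.IsReduced.nil, Nat.zero_le _⟩ = ⟨L, hL, hlen⟩ := by
    intro L
    induction L with
    | nil =>
      intro hL hlen
      rfl
    | cons a L ih =>
      intro hL hlen
      have hL' := freeQ_tail hL
      have hlen' : L.length ≤ m := by
        rw [List.length_cons] at hlen
        omega
      rw [List.map_cons, List.prod_cons, Equiv.Perm.mul_apply, ih hL' hlen']
      obtain ⟨k, b⟩ := a
      cases b with
      | true =>
        rw [if_pos rfl]
        exact hs k _ _ (Or.inr rfl)
      | false =>
        rw [if_neg (by simp), Equiv.Perm.inv_eq_iff_eq]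
        exact (hs k ⟨(k, false) :: L, hL, hlen⟩ ⟨L, hL', hlen'⟩ (Or.inl rfl)).symm
  intro L hL hne hlen heq
  have h := main L hL hlen
  rw [heq, Equiv.Perm.one_apply] at h
  exact hne (congrArg Subtype.val h).symm

end Pool.Agent.H32.SQ
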