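import Pool.Agent.H32.SQ.PN
import Pool.Agent.H32.SQ.FreeQ

/-!
PIECE SQ-8 (helper32): soficity of HNN extensions with a tiling.
-/

open Filter

namespace Pool.Agent.H32.SQ

section

variable {F : Fam} {κ : F.I → Type} {Q : F.I → Type} [∀ i, Group (Q i)] [∀ i, Finite (Q i)]

/-- the action on the first factor -/
def bas (Q : F.I → Type) [∀ i, Group (Q i)] [∀ i, Finite (Q i)]
    (s : ∀ i, Equiv.Perm (F.X i)) : ∀ i, Equiv.Perm ((F.prod Q).X i) :=
  fun i => (s i).prodCongr (Equiv.refl (Q i))

theorem bas_apply (s : ∀ i, Equiv.Perm (F.X i)) (i : F.I) (p : F.X i × Q i) :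
    bas Q s i p = (s i p.1, p.2) := rfl

/-- the stable letter -/
def stl (s : ∀ i, κ i → Q i) (T : ∀ i, Equiv.Perm (F.X i)) (τ : ∀ i, F.X i → κ i) :
    ∀ i, Equiv.Perm ((F.prod Q).X i) := fun (i : F.I) =>
  ({ toFun := fun p => (T i p.1, s i (τ i p.1) * p.2)
     invFun := fun p => ((T i).symm p.1, (s i (τ i ((T i).symm p.1)))⁻¹ * p.2)
     left_inv := fun p => by simp
     right_inv := fun p => by simp } : Equiv.Perm (F.X i × Q i))

theorem stl_apply (s : ∀ i, κ i → Q i) (T : ∀ i, Equiv.Perm (F.X i)) (τ : ∀ i, F.X i → κ i)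
    (i : F.I) (p : F.X i × Q i) : stl s T τ i p = (T i p.1, s i (τ i p.1) * p.2) := rfl

theorem stl_inv_apply (s : ∀ i, κ i → Q i) (T : ∀ i, Equiv.Perm (F.X i))
    (τ : ∀ i, F.X i → κ i) (i : F.I) (p : F.X i × Q i) :
    (stl s T τ i)⁻¹ p = ((T i)⁻¹ p.1, (s i (τ i ((T i)⁻¹ p.1)))⁻¹ * p.2) := rfl

variable {Γ : Type} [Group Γ] {K : Subgroup Γ} {σ : Γ → ∀ i, Equiv.Perm (F.X i)}

theorem sofMap_prod (Q : F.I → Type) [∀ i, Group (Q i)] [∀ i, Finite (Q i)]
    (hσ : SofMap F K σ) : SofMap (F.prod Q) K (fun g => bas Q (σ g)) where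
  mul := fun g h => by
    refine (hσ.mul g h).prod.mono' (T := _) fun i p hp => ?_
    change σ (g * h) i p.1 ≠ σ g i (σ h i p.1)
    intro h1
    apply hp
    change (σ (g * h) i p.1, p.2) = (σ g i (σ h i p.1), p.2)
    rw [h1]
  fix := fun g hg => by
    refine (hσ.fix g hg).prod.mono' (T := _) fun i p hp => ?_
    exact congrArg Prod.fst hp
  ker := fun g hg => by
    refine (hσ.ker g hg).prod.mono' (T := _) fun i p hp => ?_
    change σ g i p.1 ≠ p.1
    intro h1
    apply hp
    change (σ g i p.1, p.2) = p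
    rw [h1]
    rfl

variable {A B : Subgroup Γ} {φ : A ≃* B} {S : Set Γ} {T : ∀ i, Equiv.Perm (F.X i)}
  {τ τ' : ∀ i, F.X i → κ i}

/-- the relation of the HNN extension -/
theorem stl_rel (hσ : SofMap F K σ) (h : Tiling F σ A B φ S κ T τ τ') (s : ∀ i, κ i → Q i)
    (a : A) : (QuotientGroup.mk (stl s T τ) : PN (F.prod Q)) * (sofMap_prod Q hσ).hom a =
      (sofMap_prod Q hσ).hom (φ a : Γ) * (QuotientGroup.mk (stl s T τ) : PN (F.prod Q)) := by
  have hle : Subgroup.closure S ≤ A := (Subgroup.closure_le A).2 h.sub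
  have key : ∀ (g : Γ) (hg : g ∈ Subgroup.closure S),
      (QuotientGroup.mk (stl s T τ) : PN (F.prod Q)) * (sofMap_prod Q hσ).hom g =
      (sofMap_prod Q hσ).hom (φ ⟨g, hle hg⟩ : Γ) *
        (QuotientGroup.mk (stl s T τ) : PN (F.prod Q)) := by
    intro g hg
    induction hg using Subgroup.closure_induction with
    | mem g hg =>
      rw [SofMap.hom_apply, SofMap.hom_apply, ← QuotientGroup.mk_mul, ← QuotientGroup.mk_mul,
        mk_eq_iff]
      refine ((h.conj ⟨g, h.sub g hg⟩ hg).union (h.inv g hg)).prod.mono' (T := _)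
        fun (i : F.I) (p : F.X i × Q i) hp => ?_
      by_contra hcon
      have hcon' : ¬ (T i (σ g i p.1) ≠ σ (φ ⟨g, h.sub g hg⟩) i (T i p.1) ∨
        τ i (σ g i p.1) ≠ τ i p.1) := hcon
      rw [not_or, not_not, not_not] at hcon'
      apply hp
      change (T i (σ g i p.1), s i (τ i (σ g i p.1)) * p.2) =
        (σ (φ ⟨g, h.sub g hg⟩) i (T i p.1), s i (τ i p.1) * p.2)
      rw [hcon'.1, hcon'.2]
    | one =>
      have h1 : (⟨1, hle (Subgroup.one_mem _)⟩ : A) = 1 := rfl
      rw [h1, map_one, map_one, Subgroup.coe_one, map_one, mul_one, one_mul]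
    | mul g g' hg hg' ih ih' =>
      have h1 : (⟨g * g', hle (Subgroup.mul_mem _ hg hg')⟩ : A) = ⟨g, hle hg⟩ * ⟨g', hle hg'⟩ :=
        rfl
      rw [h1, map_mul, map_mul, Subgroup.coe_mul, map_mul, ← mul_assoc, ih, mul_assoc, ih',
        mul_assoc]
    | inv g hg ih =>
      have h1 : (⟨g⁻¹, hle (Subgroup.inv_mem _ hg)⟩ : A) = (⟨g, hle hg⟩ : A)⁻¹ := rfl
      rw [h1, map_inv, map_inv, Subgroup.coe_inv, map_inv, eq_inv_mul_iff_mul_eq, ← mul_assoc,
        ← ih, mul_assoc, mul_inv_cancel, mul_one]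
  exact key a (h.gen a.2)

/-- evaluation of words in the free generators -/
def ev {κ Q : Type} [Group Q] (s : κ → Q) (L : List (κ × Bool)) : Q :=
  (L.map (fun p => if p.2 then s p.1 else (s p.1)⁻¹)).prod

/-- the permutations given by words, on the first factor -/
def Wd (σ : Γ → ∀ i, Equiv.Perm (F.X i)) (T : ∀ i, Equiv.Perm (F.X i)) (i : F.I)
    (l : List (ℤˣ × Γ)) : Equiv.Perm (F.X i) :=
  (l.map (fun p => T i ^ (p.1 : ℤ) * σ p.2 i)).prod

/-- labels -/
def lab (τ τ' : ∀ i, F.X i → κ i) (u : ℤˣ) (i : F.I) (x : F.X i) : κ i :=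
  if u = 1 then τ i x else τ' i x

/-- the word in the free generators along a trajectory -/
def VL (σ : Γ → ∀ i, Equiv.Perm (F.X i)) (T : ∀ i, Equiv.Perm (F.X i))
    (τ τ' : ∀ i, F.X i → κ i) (i : F.I) : List (ℤˣ × Γ) → F.X i → List (κ i × Bool)
  | [], _ => []
  | p :: l, x => (lab τ τ' p.1 i (σ p.2 i (Wd σ T i l x)), decide (p.1 = 1)) ::
      VL σ T τ τ' i l x

omit [Group Γ] in
theorem VL_length (i : F.I) (l : List (ℤˣ × Γ)) (x : F.X i) :
    (VL σ T τ τ' i l x).length = l.length := by
  induction l with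
  | nil => rfl
  | cons p l ih =>
    change (VL σ T τ τ' i l x).length + 1 = l.length + 1
    rw [ih]

/-- the permutations given by words -/
def Rd (σ : Γ → ∀ i, Equiv.Perm (F.X i)) (s : ∀ i, κ i → Q i) (T : ∀ i, Equiv.Perm (F.X i))
    (τ : ∀ i, F.X i → κ i) (l : List (ℤˣ × Γ)) : ∀ i, Equiv.Perm ((F.prod Q).X i) :=
  (l.map (fun p => stl s T τ ^ (p.1 : ℤ) * bas Q (σ p.2))).prod

omit [Group Γ] in
theorem Rd_apply (s : ∀ i, κ i → Q i) (hlab : ∀ i x, τ' i (T i x) = τ i x) (i : F.I)
    (l : List (ℤˣ × Γ)) (x : F.X i) (q : Q i) :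
    Rd σ s T τ l i (x, q) = (Wd σ T i l x, ev (s i) (VL σ T τ τ' i l x) * q) := by
  induction l with
  | nil =>
    change (x, q) = (x, 1 * q)
    rw [one_mul]
  | cons p l ih =>
    obtain ⟨u, g⟩ := p
    have h1 : Rd σ s T τ ((u, g) :: l) i (x, q) =
        (stl s T τ i ^ (u : ℤ)) (bas Q (σ g) i (Rd σ s T τ l i (x, q))) := by
      unfold Rd
      rw [List.map_cons, List.prod_cons]
      rfl
    have h2 : Wd σ T i ((u, g) :: l) x = (T i ^ (u : ℤ)) (σ g i (Wd σ T i l x)) := by
      unfold Wd
      rw [List.map_cons, List.prod_cons]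
      rfl
    have h3 : ev (s i) (VL σ T τ τ' i ((u, g) :: l) x) =
        (if decide (u = 1) then s i (lab τ τ' u i (σ g i (Wd σ T i l x)))
          else (s i (lab τ τ' u i (σ g i (Wd σ T i l x))))⁻¹) *
          ev (s i) (VL σ T τ τ' i l x) := by
      unfold ev
      rw [VL, List.map_cons, List.prod_cons]
    rw [h1, ih, h2, h3, bas_apply]
    rcases Int.units_eq_one_or u with rfl | rfl
    · rw [Units.val_one, zpow_one, zpow_one, stl_apply]
      simp [lab, mul_assoc] <;> rfl
    · rw [Units.val_neg, Units.val_one, zpow_neg, zpow_one, zpow_neg, zpow_one, stl_inv_apply]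
      have h4 : τ i ((T i).symm (σ g i (Wd σ T i l x))) = τ' i (σ g i (Wd σ T i l x)) := by
        rw [← hlab]
        congr 1
        exact (T i).apply_symm_apply _
      simp [lab, mul_assoc, h4] <;> rfl

/-- for reduced words the word along a trajectory is reduced for almost all points -/
theorem VL_reduced (h : Tiling F σ A B φ S κ T τ τ') (l : List (ℤˣ × Γ))
    (hl : l.IsChain (fun a b => a.2 ∈ HNNExtension.toSubgroup A B a.1 → a.1 = b.1)) :
    Sm F (fun i => {x | ¬ FreeGroup.IsReduced (VL σ T τ τ' i l x)}) := by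
  induction l with
  | nil =>
    refine Sm.empty.mono' fun i x hx => ?_
    exact hx FreeGroup.IsReduced.nil
  | cons p l ih =>
    rcases l with _ | ⟨p', l⟩
    · refine Sm.empty.mono' fun i x hx => ?_
      exact hx FreeGroup.IsReduced.singleton
    · rw [List.isChain_cons_cons] at hl
      have h0 := ih hl.2
      obtain ⟨u, g⟩ := p
      obtain ⟨u', g'⟩ := p'
      have hW : ∀ i x, lab τ τ' u' i (σ g' i (Wd σ T i l x)) =
          lab τ τ' (-u') i (Wd σ T i ((u', g') :: l) x) := by
        intro i x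
        have h2 : Wd σ T i ((u', g') :: l) x = (T i ^ (u' : ℤ)) (σ g' i (Wd σ T i l x)) := by
          unfold Wd
          rw [List.map_cons, List.prod_cons]
          rfl
        rw [h2]
        rcases Int.units_eq_one_or u' with rfl | rfl
        · simp [lab, h.lab]
        · have h4 : τ i ((T i).symm (σ g' i (Wd σ T i l x))) = τ' i (σ g' i (Wd σ T i l x)) := by
            rw [← h.lab]
            congr 1
            exact (T i).apply_symm_apply _
          simp [lab, h4]
      have hset : ∀ i, {x | ¬ FreeGroup.IsReduced (VL σ T τ τ' i ((u, g) :: (u', g') :: l) x)} ⊆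
          {x | ¬ FreeGroup.IsReduced (VL σ T τ τ' i ((u', g') :: l) x)} ∪
          {x | lab τ τ' u i (σ g i (Wd σ T i ((u', g') :: l) x)) =
            lab τ τ' (-u') i (Wd σ T i ((u', g') :: l) x) ∧ u ≠ u'} := by
        intro i x hx
        by_contra hcon
        rw [Set.mem_union, not_or] at hcon
        obtain ⟨h5, h6⟩ := hcon
        apply hx
        have h7 : VL σ T τ τ' i ((u, g) :: (u', g') :: l) x =
            (lab τ τ' u i (σ g i (Wd σ T i ((u', g') :: l) x)), decide (u = 1)) ::
            (lab τ τ' u' i (σ g' i (Wd σ T i l x)), decide (u' = 1)) ::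
              VL σ T τ τ' i l x := rfl
        rw [h7, FreeGroup.isReduced_cons_cons]
        refine ⟨?_, ?_⟩
        · change lab τ τ' u i (σ g i (Wd σ T i ((u', g') :: l) x)) =
            lab τ τ' u' i (σ g' i (Wd σ T i l x)) → decide (u = 1) = decide (u' = 1)
          intro h8
          rw [hW] at h8
          by_contra h9
          apply h6
          refine ⟨h8, ?_⟩
          rintro rfl
          exact h9 rfl
        · by_contra h8
          exact h5 h8
      refine (h0.union ?_).mono' (T := _) hset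
      by_cases huu : u = u'
      · refine Sm.empty.mono' fun i x hx => ?_
        exact hx.2 huu
      · have hg : g ∉ HNNExtension.toSubgroup A B u := fun h8 => huu (hl.1 h8)
        have hu : -u' = u := by
          rcases Int.units_eq_one_or u with rfl | rfl <;>
            rcases Int.units_eq_one_or u' with rfl | rfl
          · exact absurd rfl huu
          · simp
          · rfl
          · exact absurd rfl huu
        have h9 : Sm F (fun i => {x | lab τ τ' u i (σ g i x) = lab τ τ' u i x}) := by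
          rcases Int.units_eq_one_or u with rfl | rfl
          · refine (h.sepA g hg).mono' fun i x hx => ?_
            have hx' : lab τ τ' 1 i (σ g i x) = lab τ τ' 1 i x := hx
            simpa [lab] using hx'
          · refine (h.sepB g hg).mono' fun i x hx => ?_
            have hx' : lab τ τ' (-1) i (σ g i x) = lab τ τ' (-1) i x := hx
            simpa [lab] using hx'
        refine (h9.preimage (fun i => Wd σ T i ((u', g') :: l))).mono' fun i x hx => ?_
        have hx1 := hx.1
        rw [hu] at hx1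
        exact hx1

end

theorem hnn_sof {F : Fam} {Γ : Type} [Group Γ] {K : Subgroup Γ}
    {σ : Γ → ∀ i, Equiv.Perm (F.X i)} (hσ : SofMap F K σ) {A B : Subgroup Γ} {φ : A ≃* B}
    {S : Set Γ} {κ : F.I → Type} [∀ i, Finite (κ i)] {T : ∀ i, Equiv.Perm (F.X i)}
    {τ τ' : ∀ i, F.X i → κ i} (h : Tiling F σ A B φ S κ T τ τ') (N : F.I → ℕ)
    (hN : Tendsto N F.l atTop) :
    SofMod (K.map (HNNExtension.of : Γ →* HNNExtension Γ A B φ)) := by
  choose Q hQ hQf s hs using fun i => exists_free_quot (κ i) (N i)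
  have hx := stl_rel (Q := Q) hσ h s
  let L : HNNExtension Γ A B φ →* PN (F.prod Q) :=
    HNNExtension.lift (sofMap_prod Q hσ).hom (QuotientGroup.mk (stl s T τ)) hx
  have hLof : ∀ g, L (HNNExtension.of g) = (QuotientGroup.mk (bas Q (σ g)) : PN (F.prod Q)) :=
    fun g => HNNExtension.lift_of _ _ _ g
  have hLt : L HNNExtension.t = (QuotientGroup.mk (stl s T τ) : PN (F.prod Q)) :=
    HNNExtension.lift_t _ _ _
  have hLR : ∀ l : List (ℤˣ × Γ), L ((l.map (fun x => HNNExtension.t ^ (x.1 : ℤ) *
      HNNExtension.of x.2)).prod) = (QuotientGroup.mk (Rd σ s T τ l) : PN (F.prod Q)) := by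
    intro l
    induction l with
    | nil =>
      rw [List.map_nil, List.prod_nil, map_one]
      rfl
    | cons p l ih =>
      rw [List.map_cons, List.prod_cons, map_mul, ih, map_mul, map_zpow, hLof, hLt]
      unfold Rd
      rw [List.map_cons, List.prod_cons]
      rfl
  refine sofMod_of_hom L ?_ ?_
  · rintro _ ⟨k, hk, rfl⟩
    rw [hLof, ← QuotientGroup.mk_one, mk_eq_iff]
    exact (sofMap_prod Q hσ).ker k hk
  · intro x hxK
    obtain ⟨d⟩ := HNNExtension.NormalWord.TransversalPair.nonempty Γ A B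
    obtain ⟨w, rfl⟩ : ∃ w : HNNExtension.NormalWord d, w.prod φ = x :=
      ⟨(HNNExtension.NormalWord.equiv φ d) x, (HNNExtension.NormalWord.equiv φ d).symm_apply_apply x⟩
    refine ⟨bas Q (σ w.head) * Rd σ s T τ w.toList, ?_, ?_⟩
    · unfold HNNExtension.NormalWord.ReducedWord.prod
      rw [map_mul, hLof, hLR]
      rfl
    · by_cases hnil : w.toList = []
      · have hhead : w.head ∉ K := by
          intro hk
          apply hxK
          refine ⟨w.head, hk, ?_⟩
          unfold HNNExtension.NormalWord.ReducedWord.prod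
          rw [hnil, List.map_nil, List.prod_nil, mul_one]
        rw [hnil]
        refine ((sofMap_prod Q hσ).fix w.head hhead).mono' fun i p hp => ?_
        exact hp
      · refine (VL_reduced h w.toList w.chain).prod.mono (T := _) ?_
        have hev : ∀ᶠ i in F.l, w.toList.length ≤ N i := hN.eventually_ge_atTop _
        change ∀ᶠ i in F.l, _
        filter_upwards [hev] with i hi p hp
        change ¬ FreeGroup.IsReduced (VL σ T τ τ' i w.toList p.1)
        intro hred
        obtain ⟨x, q⟩ := p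
        have h1 : (bas Q (σ w.head) * Rd σ s T τ w.toList) i (x, q) = (x, q) := hp
        have h2 : (bas Q (σ w.head) * Rd σ s T τ w.toList) i (x, q) =
            bas Q (σ w.head) i (Rd σ s T τ w.toList i (x, q)) := rfl
        rw [h2, Rd_apply s h.lab, bas_apply] at h1
        have h3 : ev (s i) (VL σ T τ τ' i w.toList x) * q = q := congrArg Prod.snd h1
        rw [mul_eq_right] at h3
        refine hs i _ hred ?_ ?_ h3
        · intro h4
          apply hnil
          have h5 := VL_length (σ := σ) (T := T) (τ := τ) (τ' := τ') i w.toList x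
          rw [h4] at h5
          exact List.eq_nil_of_length_eq_zero h5.symm
        · rw [VL_length]
          exact hi

end Pool.Agent.H32.SQ
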