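import Pool.Agent.H32.SQ.SmA

/-!
PIECE SQ-5: the group of families of permutations modulo the families which are almost the identity.

PROOF. `NS`: `mul_mem`: `{x | s i (s' i x) ≠ x} ⊆ {x | s' i x ≠ x} ∪ {x | s i x ≠ x}`; `inv_mem`: `(s i)⁻¹ x ≠ x` iff `s i x ≠ x`.
`NS_normal`: `(g n g⁻¹) x ≠ x` iff `n (g⁻¹ x) ≠ g⁻¹ x`: the preimage of the set for `n` under the permutation `g⁻¹` (`Sm.preimage`).
`mk_eq_iff`: `QuotientGroup.eq`: `s⁻¹ * s' ∈ NS`, and `(s i)⁻¹ (s' i x) ≠ x` iff `s i x ≠ s' i x`.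
`SofMap.hom`: `g ↦ mk (σ g)`; `map_mul` by `mk_eq_iff` and `mul`; use `MonoidHom.mk'`.
`sofMod_of_hom`: `σ h := (L h).out`; `mul`: `mk ((L (g h)).out) = L (g h) = L g * L h = mk (out * out)`, `mk_eq_iff`; `ker`: `mk out = 1 = mk 1`;
`fix`: `mk out = mk s`, so `{x | out i x = x} ⊆ {x | out i x ≠ s i x} ∪ {x | s i x = x}`.
-/

open Filter

namespace Pool.Agent.H32.SQ

/-- families of permutations that are almost the identity -/
def NS (F : Fam) : Subgroup (∀ i, Equiv.Perm (F.X i)) where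
  carrier := {s | Sm F (fun i => {x | s i x ≠ x})}
  mul_mem' := by
    intro s s' hs hs'
    refine Sm.mono' (Sm.union (F := F) hs' hs) ?_
    intro i x hx
    by_cases h : s' i x = x
    · right
      intro h2
      apply hx
      change s i (s' i x) = x
      rw [h, h2]
    · exact Or.inl h
  one_mem' := by
    refine Sm.mono' (Sm.empty (F := F)) ?_
    intro i x hx
    exact hx rfl
  inv_mem' := by
    intro s hs
    refine Sm.mono' (F := F) hs ?_
    intro i x hx h
    apply hx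
    change (s i)⁻¹ x = x
    rw [Equiv.Perm.inv_eq_iff_eq]
    exact h.symm

instance NS_normal (F : Fam) : (NS F).Normal := by
  refine ⟨?_⟩
  intro n hn g
  refine Sm.mono' (Sm.preimage (F := F) (fun i => (g i)⁻¹) hn) ?_
  intro i x hx h
  apply hx
  change g i (n i ((g i)⁻¹ x)) = x
  have h2 : n i ((g i)⁻¹ x) = (g i)⁻¹ x := h
  rw [h2]
  exact Equiv.apply_symm_apply (g i) x

/-- the group of families of permutations modulo the ones that are almost the identity -/
abbrev PN (F : Fam) : Type := (∀ i, Equiv.Perm (F.X i)) ⧸ NS F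

variable {F : Fam} {Γ : Type} [Group Γ] {K : Subgroup Γ} {σ : Γ → ∀ i, Equiv.Perm (F.X i)}

theorem mk_eq_iff {s s' : ∀ i, Equiv.Perm (F.X i)} :
    (QuotientGroup.mk s : PN F) = QuotientGroup.mk s' ↔
      Sm F (fun i => {x | s i x ≠ s' i x}) := by
  rw [QuotientGroup.eq]
  change Sm F (fun i => {x | (s i)⁻¹ (s' i x) ≠ x}) ↔ _
  have h : (fun i => {x | (s i)⁻¹ (s' i x) ≠ x}) = fun i => {x | s i x ≠ s' i x} := by
    funext i
    ext x
    change (s i)⁻¹ (s' i x) ≠ x ↔ s i x ≠ s' i x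
    rw [ne_eq, Equiv.Perm.inv_eq_iff_eq]
    rw [eq_comm]
  rw [h]

/-- the homomorphism given by approximate actions -/
def SofMap.hom (hσ : SofMap F K σ) : Γ →* PN F :=
  MonoidHom.mk' (fun g => (QuotientGroup.mk (σ g) : PN F)) (by
    intro g h
    rw [← QuotientGroup.mk_mul, mk_eq_iff]
    exact hσ.mul g h)

theorem SofMap.hom_apply (hσ : SofMap F K σ) (g : Γ) :
    hσ.hom g = (QuotientGroup.mk (σ g) : PN F) := rfl

theorem sofMod_of_hom (L : Γ →* PN F) (hker : ∀ h ∈ K, L h = 1)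
    (hfix : ∀ h, h ∉ K → ∃ s : ∀ i, Equiv.Perm (F.X i), L h = (QuotientGroup.mk s : PN F) ∧
      Sm F (fun i => {x | s i x = x})) : SofMod K := by
  obtain ⟨o, ho⟩ : ∃ o : Γ → (∀ i, Equiv.Perm (F.X i)),
      ∀ h, (QuotientGroup.mk (o h) : PN F) = L h :=
    ⟨fun h => (L h).out, fun h => QuotientGroup.out_eq' _⟩
  refine ⟨F, o, ?_, ?_, ?_⟩
  · intro g h
    have h1 : (QuotientGroup.mk (o (g * h)) : PN F) =
        QuotientGroup.mk (o g * o h) := by
      have h2 : (QuotientGroup.mk (o g * o h) : PN F) =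
          (QuotientGroup.mk (o g) : PN F) * (QuotientGroup.mk (o h) : PN F) :=
        QuotientGroup.mk_mul (NS F) (o g) (o h)
      exact (ho (g * h)).trans ((map_mul L g h).trans
        ((congrArg₂ (· * ·) (ho g).symm (ho h).symm).trans h2.symm))
    have h4 := mk_eq_iff.1 h1
    exact h4
  · intro g hg
    obtain ⟨s, h1, h2⟩ := hfix g hg
    have h3 : (QuotientGroup.mk (o g) : PN F) = QuotientGroup.mk s := by
      rw [ho, h1]
    refine Sm.mono' (Sm.union (F := F) (mk_eq_iff.1 h3) h2) ?_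
    intro i x hx
    by_cases h : o g i x = s i x
    · right
      change s i x = x
      rw [← h]
      exact hx
    · exact Or.inl h
  · intro g hg
    have h3 : (QuotientGroup.mk (o g) : PN F) = QuotientGroup.mk 1 := by
      rw [ho, hker g hg, QuotientGroup.mk_one]
    have h4 := mk_eq_iff.1 h3
    exact h4

end Pool.Agent.H32.SQ
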