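import Mathlib

/-!
PIECE SQ-3: a permutation of a finite set is almost the successor function of a numbering.

PROOF. For every orbit (class of `Equiv.Perm.SameCycle.setoid α`) choose a representative (`Quotient.out`), `r x` the
representative of the orbit of `x`, and `pos x` the least `j : ℕ` with `(α ^ j) (r x) = x` (`Nat.find`; exists since `X` is finite:
`Equiv.Perm.SameCycle.exists_pow_eq'` or similar).  Let `o x : ℕ` be a number of the orbit (an injection of the quotient in `ℕ`,
`Finite.exists_equiv_fin` or `Encodable`).  The map `key x := toLex (o x, pos x) : ℕ ×ₗ ℕ` is injective.  Let `e` be the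
numbering of `X` in increasing order of `key`: e.g. `e x := ` the number of `y` with `key y < key x`, an injective map
`X → Fin (Nat.card X)`, so bijective (`Finite.injective_iff_surjective_of_equiv`, or `Fintype.bijective_iff_injective_and_card`).
If `α x ≠ r x` then `r (α x) = r x`, `o (α x) = o x`, `pos (α x) = pos x + 1` (`≤` is clear; if `(α ^ j) (r x) = α x`, and `j = 0` then
`α x = r x`, excluded; otherwise `(α ^ (j - 1)) (r x) = x`, so `pos x ≤ j - 1`).  There is no key strictly between `(o x, pos x)` and
`(o x, pos x + 1)`, so `{y | key y < key (α x)} = insert x {y | key y < key x}` and `e (α x) = e x + 1`.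
So the set in the statement is contained in `{x | α x = r x}`, which is mapped by `x ↦ α x` injectively into the set `R` of all
representatives `{x | r x = x}`.  Let `S := {x | ∃ j, 0 < j ∧ j < M ∧ (α ^ j) x = x}`.  The points `(α ^ j) x`, `x ∈ R \ S`, `j < M`, are
pairwise different (the same orbit, so the same representative `x`; then `(α ^ (j - j')) x = x`), so `M * (R \ S).ncard ≤ Nat.card X`
and `M * R.ncard ≤ M * (R \ S).ncard + M * S.ncard`.
-/

namespace Pool.Agent.H32.SQ

private theorem Path_key {X : Type} [Finite X] (key : X → ℕ) (hk : Function.Injective key) :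
    ∃ e : X ≃ Fin (Nat.card X), ∀ x y, key y = key x + 1 → (e y : ℕ) = (e x : ℕ) + 1 := by
  classical
  have := Fintype.ofFinite X
  set S : Finset ℕ := Finset.univ.image key with hS
  have hc : S.card = Nat.card X := by
    rw [hS, Finset.card_image_of_injective _ hk, Finset.card_univ, Nat.card_eq_fintype_card]
  have hm : ∀ x, key x ∈ S := fun x => Finset.mem_image_of_mem key (Finset.mem_univ x)
  let f : X → S := fun x => ⟨key x, hm x⟩
  have hf : Function.Bijective f := by
    constructor
    · intro x y h
      exact hk (congrArg Subtype.val h)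
    · rintro ⟨n, hn⟩
      obtain ⟨x, -, hx⟩ := Finset.mem_image.1 hn
      exact ⟨x, Subtype.ext hx⟩
  let o := S.orderIsoOfFin hc
  refine ⟨(Equiv.ofBijective f hf).trans o.symm.toEquiv, ?_⟩
  intro x y h
  have h1 : f x ⋖ f y := by
    refine ⟨?_, ?_⟩
    · show key x < key y
      omega
    · rintro ⟨c, hc'⟩ h2 h3
      have h2' : key x < c := h2
      have h3' : c < key y := h3
      omega
  have h2 : o.symm (f x) ⋖ o.symm (f y) := by
    rwa [apply_covBy_apply_iff]
  rw [Fin.covBy_iff, Nat.covBy_iff_add_one_eq] at h2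
  exact h2.symm

theorem exists_path {X : Type} [Finite X] (α : Equiv.Perm X) :
    ∃ e : X ≃ Fin (Nat.card X), ∀ M : ℕ, 0 < M →
      M * {x : X | (e (α x) : ℕ) ≠ (e x : ℕ) + 1}.ncard ≤
        Nat.card X + M * {x : X | ∃ j, 0 < j ∧ j < M ∧ (α ^ j) x = x}.ncard := by
  classical
  have := Fintype.ofFinite X
  let s := Equiv.Perm.SameCycle.setoid α
  obtain ⟨on, hon⟩ := Countable.exists_injective_nat (Quotient s)
  let r : X → X := fun x => (Quotient.mk s x).out
  have hr1 : ∀ x, α.SameCycle (r x) x := fun x => Quotient.exact (Quotient.out_eq (Quotient.mk s x))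
  have hr2 : ∀ x y, α.SameCycle x y → r x = r y := by
    intro x y h
    have h1 : Quotient.mk s x = Quotient.mk s y := Quotient.sound h
    show (Quotient.mk s x).out = (Quotient.mk s y).out
    rw [h1]
  have hr3 : ∀ x, r (r x) = r x := fun x => hr2 _ _ (hr1 x)
  have hr4 : ∀ x, r (α x) = r x := fun x => (hr2 _ _ ⟨1, by simp⟩).symm
  have hr5 : ∀ (j : ℕ) x, r ((α ^ j) x) = r x := fun j x => (hr2 _ _ ⟨j, by simp⟩).symm
  have hex : ∀ x, ∃ j : ℕ, (α ^ j) (r x) = x := fun x => (hr1 x).exists_nat_pow_eq
  let pos : X → ℕ := fun x => Nat.find (hex x)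
  have hpos : ∀ x, (α ^ pos x) (r x) = x := fun x => Nat.find_spec (hex x)
  have hmin : ∀ x j, (α ^ j) (r x) = x → pos x ≤ j := fun x j h => Nat.find_min' (hex x) h
  have hstep : ∀ x, α x ≠ r x → pos (α x) = pos x + 1 := by
    intro x hx
    apply le_antisymm
    · apply hmin
      rw [hr4, pow_succ', Equiv.Perm.mul_apply, hpos]
    · have h1 := hpos (α x)
      rw [hr4] at h1
      obtain ⟨j, hj⟩ : ∃ j, pos (α x) = j + 1 := by
        refine Nat.exists_eq_succ_of_ne_zero ?_
        intro h0
        rw [h0, pow_zero, Equiv.Perm.one_apply] at h1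
        exact hx h1.symm
      rw [hj, pow_succ', Equiv.Perm.mul_apply] at h1
      have := hmin x j (α.injective h1)
      omega
  set K : ℕ := Finset.univ.sup pos + 1 with hK
  have hlt : ∀ x, pos x < K := fun x => Nat.lt_succ_of_le (Finset.le_sup (Finset.mem_univ x))
  let key : X → ℕ := fun x => on (Quotient.mk s x) * K + pos x
  have hkey : Function.Injective key := by
    intro x y h
    have h' : on (Quotient.mk s x) * K + pos x = on (Quotient.mk s y) * K + pos y := h
    have hKp : 0 < K := by omega
    have h1 : pos x = pos y := by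
      have := congrArg (· % K) h'
      simp only [Nat.mul_comm _ K, Nat.mul_add_mod, Nat.mod_eq_of_lt (hlt x),
        Nat.mod_eq_of_lt (hlt y)] at this
      exact this
    have h2 : on (Quotient.mk s x) = on (Quotient.mk s y) := by
      rw [h1] at h'
      exact Nat.eq_of_mul_eq_mul_right hKp (Nat.add_right_cancel h')
    have h3 : Quotient.mk s x = Quotient.mk s y := hon h2
    have h4 : r x = r y := by
      show (Quotient.mk s x).out = (Quotient.mk s y).out
      rw [h3]
    rw [← hpos x, ← hpos y, h1, h4]
  obtain ⟨e, he⟩ := Path_key key hkey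
  refine ⟨e, ?_⟩
  intro M hM
  set R : Set X := {x | r x = x} with hR
  set S : Set X := {x : X | ∃ j, 0 < j ∧ j < M ∧ (α ^ j) x = x} with hS
  have h1 : {x : X | (e (α x) : ℕ) ≠ (e x : ℕ) + 1}.ncard ≤ R.ncard := by
    refine Set.ncard_le_ncard_of_injOn α ?_ (α.injective.injOn) (Set.toFinite _)
    intro x hx
    have hx' : α x = r x := by
      by_contra h
      apply hx
      apply he
      show on (Quotient.mk s (α x)) * K + pos (α x) = on (Quotient.mk s x) * K + pos x + 1
      have h2 : Quotient.mk s (α x) = Quotient.mk s x :=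
        Quotient.sound (Equiv.Perm.SameCycle.symm ⟨1, by simp⟩)
      rw [h2, hstep x h]
      rfl
    show r (α x) = α x
    rw [hr4, hx']
  have h2 : R.ncard ≤ (R \ S).ncard + S.ncard := Set.ncard_le_ncard_sdiff_add_ncard R S
  have h3 : M * (R \ S).ncard ≤ Nat.card X := by
    let g : ((R \ S : Set X)) × Fin M → X := fun p => (α ^ (p.2 : ℕ)) p.1
    have hg : Function.Injective g := by
      rintro ⟨⟨x, hx⟩, j⟩ ⟨⟨y, hy⟩, k⟩ h
      have h' : (α ^ (j : ℕ)) x = (α ^ (k : ℕ)) y := h
      have hxy : x = y := by
        have h4 := congrArg r h'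
        rw [hr5, hr5] at h4
        rw [← show r x = x from hx.1, ← show r y = y from hy.1]
        exact h4
      subst hxy
      have key2 : ∀ a b : ℕ, a < b → b < M → (α ^ a) x ≠ (α ^ b) x := by
        intro a b hab hb h5
        apply hx.2
        refine ⟨b - a, by omega, by omega, ?_⟩
        have h6 : (α ^ b) x = (α ^ a) ((α ^ (b - a)) x) := by
          rw [← Equiv.Perm.mul_apply, ← pow_add]
          congr 2
          omega
        rw [h6] at h5
        exact ((α ^ a).injective h5).symm
      have hjk : (j : ℕ) = k := by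
        rcases lt_trichotomy (j : ℕ) k with h5 | h5 | h5
        · exact absurd h' (key2 _ _ h5 k.2)
        · exact h5
        · exact absurd h'.symm (key2 _ _ h5 j.2)
      have : j = k := Fin.ext hjk
      rw [this]
    have h4 := Nat.card_le_card_of_injective g hg
    rw [Nat.card_prod, Nat.card_coe_set_eq, Nat.card_fin, Nat.mul_comm] at h4
    exact h4
  calc M * {x : X | (e (α x) : ℕ) ≠ (e x : ℕ) + 1}.ncard ≤ M * R.ncard :=
        Nat.mul_le_mul_left _ h1
    _ ≤ M * ((R \ S).ncard + S.ncard) := Nat.mul_le_mul_left _ h2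
    _ = M * (R \ S).ncard + M * S.ncard := Nat.mul_add _ _ _
    _ ≤ Nat.card X + M * S.ncard := Nat.add_le_add_right h3 _

end Pool.Agent.H32.SQ
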