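import Pool.Agent.H32.SQ.Defs

/-!
Small families of sets: closure properties.
-/

open Filter

namespace Pool.Agent.H32.SQ

variable {F : Fam} {S T : ∀ i, Set (F.X i)}

theorem Sm.mono (hT : Sm F T) (h : ∀ᶠ i in F.l, S i ⊆ T i) : Sm F S := by
  intro ε hε
  filter_upwards [hT ε hε, h] with i h1 h2
  refine le_trans ?_ h1
  exact_mod_cast Set.ncard_le_ncard h2 (Set.toFinite _)

theorem Sm.mono' (hT : Sm F T) (h : ∀ i, S i ⊆ T i) : Sm F S :=
  hT.mono (Eventually.of_forall h)

theorem Sm.empty : Sm F (fun _ => ∅) := by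
  intro ε hε
  refine Eventually.of_forall fun i => ?_
  rw [Set.ncard_empty, Nat.cast_zero]
  positivity

theorem Sm.union (hS : Sm F S) (hT : Sm F T) : Sm F (fun i => S i ∪ T i) := by
  intro ε hε
  filter_upwards [hS (ε / 2) (by positivity), hT (ε / 2) (by positivity)] with i h1 h2
  have h3 : ((S i ∪ T i).ncard : ℝ) ≤ (S i).ncard + (T i).ncard := by
    exact_mod_cast Set.ncard_union_le _ _
  linarith

theorem Sm.biUnion {ι : Type*} (s : Finset ι) {S : ι → ∀ i, Set (F.X i)}
    (h : ∀ j ∈ s, Sm F (S j)) : Sm F (fun i => ⋃ j ∈ s, S j i) := by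
  classical
  induction s using Finset.induction_on with
  | empty =>
    refine Sm.empty.mono' fun i => ?_
    simp
  | insert j s hj ih =>
    refine ((h j (Finset.mem_insert_self _ _)).union
      (ih fun k hk => h k (Finset.mem_insert_of_mem hk))).mono' fun i => ?_
    rw [Finset.set_biUnion_insert]

theorem Sm.preimage (π : ∀ i, Equiv.Perm (F.X i)) (hS : Sm F S) :
    Sm F (fun i => π i ⁻¹' S i) := by
  intro ε hε
  filter_upwards [hS ε hε] with i h1
  have h2 : (π i ⁻¹' S i).ncard = (S i).ncard := by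
    rw [← Set.ncard_image_of_injective _ (π i).injective, Set.image_preimage_eq _ (π i).surjective]
  rw [h2]
  exact h1

theorem Sm.prod {Q : F.I → Type} [∀ i, Finite (Q i)] [∀ i, Nonempty (Q i)] (hS : Sm F S) :
    Sm (F.prod Q) (fun i => {p : F.X i × Q i | p.1 ∈ S i}) := by
  intro ε hε
  have h0 := hS ε hε
  change ∀ᶠ i in F.l, _
  filter_upwards [h0] with i h1
  have h2 : {p : F.X i × Q i | p.1 ∈ S i} = S i ×ˢ Set.univ := by
    ext p
    simp
  change (({p : F.X i × Q i | p.1 ∈ S i}).ncard : ℝ) ≤ ε * (Nat.card (F.X i × Q i) : ℝ)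
  rw [h2, Set.ncard_prod, Set.ncard_univ, Nat.card_prod]
  push_cast
  rw [← mul_assoc]
  exact mul_le_mul_of_nonneg_right h1 (Nat.cast_nonneg _)

theorem Sm.cur (hS : Sm F S) : Sm F.cur (fun p => S p.2) := by
  intro ε hε
  change ∀ᶠ p in (atTop : Filter ℕ).curry F.l, _
  rw [Filter.eventually_curry_iff]
  exact Eventually.of_forall fun m => hS ε hε

/-- criterion for small families on `F.cur` -/
theorem sm_cur {S : ∀ p : ℕ × F.I, Set (F.X p.2)}
    (h : ∀ ε : ℝ, 0 < ε → ∀ᶠ m : ℕ in atTop, ∀ᶠ i in F.l,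
      ((S (m, i)).ncard : ℝ) ≤ ε * Nat.card (F.X i)) : Sm F.cur S := by
  intro ε hε
  change ∀ᶠ p in (atTop : Filter ℕ).curry F.l, _
  rw [Filter.eventually_curry_iff]
  exact h ε hε

theorem Sm.exists_notMem (hS : Sm F S) : ∀ᶠ i in F.l, ∃ x, x ∉ S i := by
  filter_upwards [hS (1 / 2) (by norm_num)] with i h1
  by_contra hcon
  push Not at hcon
  have h2 : S i = Set.univ := Set.eq_univ_of_forall hcon
  rw [h2, Set.ncard_univ] at h1
  have h3 : (0 : ℝ) < Nat.card (F.X i) := by exact_mod_cast Nat.card_pos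
  linarith

end Pool.Agent.H32.SQ
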