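import Pool.Agent.H32.SQ.SmA

/-!
PIECE SQ-1: soficity of the quotient and approximate actions modulo `K`; locality.

PROOF.
`sofMod_of_isSofic`: let `hS : SApp (Γ ⧸ K)` (`sapp_of_isSofic`, `H96.DC.Basic`).  Index set
`Finset (Γ ⧸ K) × ℕ` with `atTop`; for the index `(F, n)` choose `X, σ, Bad` by `hS F (1 / (n + 1))`; the
family is `g ↦ σ (g : Γ ⧸ K)`.  `mul`: for given `g`, `h`, `ε` eventually the classes of `g`, `h` are in
`F` and `1 / (n + 1) ≤ ε`, and the set is contained in `Bad`.  `fix`: the same (`g ∉ K` iff its class is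
not `1`).  `ker`: for `g ∈ K` its class is `1`; if `1 ∈ F` then outside `Bad`
`σ 1 x = σ (1 * 1) x = σ 1 (σ 1 x)`, so `x = σ 1 x`.
`isSofic_of_sofMod`: use `isSofic_of_sapp`.  Given a finite set `F₀` of `Γ ⧸ K` and `ε`; let
`s q := Quotient.out q`; for `q, q' ∈ F₀`: `s (q * q') = s q * s q' * κ` with `κ ∈ K`.  So outside small
sets `σ (s (q q')) x = σ (s q * s q') (σ κ x) = σ (s q * s q') x = σ (s q) (σ (s q') x)` (use `mul`
twice, `ker`; all points are `x` itself: `σ (a * κ) x = σ a (σ κ x)` and `σ κ x = x` outside a small set).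
For `q ≠ 1` the set `σ (s q) x = x` is small.  Take the union of these finitely many small
families (`Sm.biUnion`, `Sm.union`), it is `≤ ε * card` for some index `i` (`Eventually.exists`).
(`SApp` wants `Fintype` and a `Finset`: `Fintype.ofFinite`, `Set.Finite.toFinset`, `Nat.card_eq_fintype_card`,
`Set.ncard_eq_toFinset_card`.)
`isSofic_local`: by `isSofic_of_sapp`; given `F₀`, `ε` let `F₁ := F₀ ∪ F₀ * F₀` (finite), `f : H →* G`
injective with `F₁ ⊆ range f`; take `X, σ, Bad` of `SApp H` for the preimage of `F₁` and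
`σ' g := σ (h)` if `g = f h` (choice), `1` if `g` is not in the range.
-/

open Filter

namespace Pool.Agent.H32.SQ

open Pool.Agent.Helper70.Sofic Pool.Agent.H96.DC

theorem sofMod_of_isSofic {Γ : Type} [Group Γ] (K : Subgroup Γ) [K.Normal]
    (h : IsSofic (Γ ⧸ K)) : SofMod K := by
  classical
  have hS := sapp_of_isSofic h
  have hS' : ∀ i : Finset (Γ ⧸ K) × ℕ, ∃ (X : Type) (_ : Fintype X) (_ : Nonempty X)
      (σ : (Γ ⧸ K) → Equiv.Perm X) (Bad : Finset X),
      (Bad.card : ℝ) ≤ (1 / ((i.2 : ℝ) + 1)) * Fintype.card X ∧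
      ∀ x, x ∉ Bad → (∀ g ∈ i.1, ∀ h ∈ i.1, σ (g * h) x = σ g (σ h x)) ∧
        (∀ g ∈ i.1, g ≠ 1 → σ g x ≠ x) := fun i => hS i.1 _ (by positivity)
  choose X fX nX σ Bad hB hσ using hS'
  let F : Fam :=
    { I := Finset (Γ ⧸ K) × ℕ
      l := atTop
      X := X
      ne := inferInstance
      fin := fun i => @Finite.of_fintype _ (fX i)
      non := nX }
  have hSm : Sm F (fun i => (Bad i : Set (X i))) := by
    intro ε hε
    obtain ⟨N, hN⟩ := exists_nat_one_div_lt hε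
    have h1 : ∀ᶠ i : Finset (Γ ⧸ K) × ℕ in atTop, ((∅ : Finset (Γ ⧸ K)), N) ≤ i :=
      eventually_ge_atTop _
    change ∀ᶠ i : Finset (Γ ⧸ K) × ℕ in atTop, _
    filter_upwards [h1] with i hi
    have h2 : N ≤ i.2 := hi.2
    have h3 : (1 / ((i.2 : ℝ) + 1)) ≤ ε := by
      refine le_trans ?_ hN.le
      apply one_div_le_one_div_of_le (by positivity)
      have : (N : ℝ) ≤ i.2 := by exact_mod_cast h2
      linarith
    rw [Set.ncard_coe_finset]
    change ((Bad i).card : ℝ) ≤ ε * (Nat.card (X i) : ℝ)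
    rw [@Nat.card_eq_fintype_card _ (fX i)]
    exact (hB i).trans (mul_le_mul_of_nonneg_right h3 (Nat.cast_nonneg _))
  have hmem : ∀ g : Γ ⧸ K, ∀ᶠ i : Finset (Γ ⧸ K) × ℕ in atTop, g ∈ i.1 := by
    intro g
    have h1 : ∀ᶠ i : Finset (Γ ⧸ K) × ℕ in atTop, (({g} : Finset (Γ ⧸ K)), 0) ≤ i :=
      eventually_ge_atTop _
    filter_upwards [h1] with i hi
    exact hi.1 (Finset.mem_singleton_self _)
  refine ⟨F, fun g i => σ i (g : Γ ⧸ K), ?_, ?_, ?_⟩
  · intro g k
    refine hSm.mono ?_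
    change ∀ᶠ i : Finset (Γ ⧸ K) × ℕ in atTop, _
    filter_upwards [hmem g, hmem k] with i hg hk
    intro x hx
    by_contra hcon
    apply hx
    exact (hσ i x (by simpa using hcon)).1 g hg k hk
  · intro g hgK
    have hg1 : (g : Γ ⧸ K) ≠ 1 := by
      intro h1
      exact hgK ((QuotientGroup.eq_one_iff g).1 h1)
    refine hSm.mono ?_
    change ∀ᶠ i : Finset (Γ ⧸ K) × ℕ in atTop, _
    filter_upwards [hmem g] with i hg
    intro x hx
    by_contra hcon
    exact (hσ i x (by simpa using hcon)).2 g hg hg1 hx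
  · intro g hgK
    have hg1 : (g : Γ ⧸ K) = 1 := (QuotientGroup.eq_one_iff g).2 hgK
    refine hSm.mono ?_
    change ∀ᶠ i : Finset (Γ ⧸ K) × ℕ in atTop, _
    filter_upwards [hmem 1] with i h1
    intro x hx
    by_contra hcon
    apply hx
    have h2 := (hσ i x (by simpa using hcon)).1 1 h1 1 h1
    rw [mul_one] at h2
    change σ i (g : Γ ⧸ K) x = x
    rw [hg1]
    exact ((σ i 1).injective h2).symm

theorem isSofic_of_sofMod {Γ : Type} [Group Γ] (K : Subgroup Γ) [K.Normal] (h : SofMod K) :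
    IsSofic (Γ ⧸ K) := by
  classical
  obtain ⟨F, σ, hσ⟩ := h
  apply isSofic_of_sapp
  intro F₀ ε hε
  let s : Γ ⧸ K → Γ := fun q => Quotient.out q
  have hs : ∀ q, ((s q : Γ) : Γ ⧸ K) = q := fun q => QuotientGroup.out_eq' q
  let κ : Γ ⧸ K → Γ ⧸ K → Γ := fun q r => (s q * s r)⁻¹ * s (q * r)
  have hκ : ∀ q r, κ q r ∈ K := by
    intro q r
    rw [← QuotientGroup.eq_one_iff]
    change (((s q * s r)⁻¹ * s (q * r) : Γ) : Γ ⧸ K) = 1
    rw [QuotientGroup.mk_mul, QuotientGroup.mk_inv, QuotientGroup.mk_mul, hs, hs, hs]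
    group
  have hκ' : ∀ q r, s (q * r) = (s q * s r) * κ q r := by
    intro q r
    change s (q * r) = (s q * s r) * ((s q * s r)⁻¹ * s (q * r))
    group
  let A : (Γ ⧸ K) × (Γ ⧸ K) → ∀ i, Set (F.X i) := fun p i =>
    ({x | σ ((s p.1 * s p.2) * κ p.1 p.2) i x ≠ σ (s p.1 * s p.2) i (σ (κ p.1 p.2) i x)} ∪
      {x | σ (κ p.1 p.2) i x ≠ x}) ∪ {x | σ (s p.1 * s p.2) i x ≠ σ (s p.1) i (σ (s p.2) i x)}
  let B : Γ ⧸ K → ∀ i, Set (F.X i) := fun q i => {x | σ (s q) i x = x}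
  have hA : Sm F (fun i => ⋃ p ∈ F₀ ×ˢ F₀, A p i) :=
    Sm.biUnion _ fun p _ => ((hσ.mul _ _).union (hσ.ker _ (hκ _ _))).union (hσ.mul _ _)
  have hB : Sm F (fun i => ⋃ q ∈ F₀.filter (fun q => q ≠ 1), B q i) := by
    refine Sm.biUnion _ fun q hq => hσ.fix _ ?_
    intro hK
    have h1 := (QuotientGroup.eq_one_iff (s q)).2 hK
    rw [hs] at h1
    exact (Finset.mem_filter.1 hq).2 h1
  obtain ⟨i, hi⟩ := ((hA.union hB) ε hε).exists
  let U : Set (F.X i) := (⋃ p ∈ F₀ ×ˢ F₀, A p i) ∪ ⋃ q ∈ F₀.filter (fun q => q ≠ 1), B q i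
  have hU : (U.ncard : ℝ) ≤ ε * Nat.card (F.X i) := hi
  let _ft : Fintype (F.X i) := Fintype.ofFinite _
  refine ⟨F.X i, _ft, F.non i, fun q => σ (s q) i, (Set.toFinite U).toFinset, ?_, ?_⟩
  · rw [← Set.ncard_eq_toFinset_card U (Set.toFinite U), ← Nat.card_eq_fintype_card]
    exact hU
  · intro x hx
    rw [Set.Finite.mem_toFinset] at hx
    have hx1 : x ∉ ⋃ p ∈ F₀ ×ˢ F₀, A p i := fun h1 => hx (Or.inl h1)
    have hx2 : x ∉ ⋃ q ∈ F₀.filter (fun q => q ≠ 1), B q i := fun h1 => hx (Or.inr h1)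
    simp only [Set.mem_iUnion, not_exists] at hx1 hx2
    constructor
    · intro q hq r hr
      have h1 := hx1 (q, r) (Finset.mk_mem_product hq hr)
      change ¬ (((_ ∨ _)) ∨ _) at h1
      rw [not_or, not_or] at h1
      obtain ⟨⟨h2, h3⟩, h4⟩ := h1
      have h2' : σ ((s q * s r) * κ q r) i x = σ (s q * s r) i (σ (κ q r) i x) := by
        by_contra hc
        exact h2 hc
      have h3' : σ (κ q r) i x = x := by
        by_contra hc
        exact h3 hc
      have h4' : σ (s q * s r) i x = σ (s q) i (σ (s r) i x) := by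
        by_contra hc
        exact h4 hc
      change σ (s (q * r)) i x = σ (s q) i (σ (s r) i x)
      rw [hκ', h2', h3', h4']
    · intro q hq hq1 hfix
      exact hx2 q (Finset.mem_filter.2 ⟨hq, hq1⟩) hfix

theorem isSofic_local {G : Type} [Group G]
    (h : ∀ F : Finset G, ∃ (H : Type) (_ : Group H) (f : H →* G), Function.Injective f ∧
      IsSofic H ∧ ∀ g ∈ F, g ∈ f.range) : IsSofic G := by
  classical
  apply isSofic_of_sapp
  intro F₀ ε hε
  obtain ⟨H, _, f, hf, hH, hr⟩ := h F₀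
  obtain ⟨X, iX, nX, σ, Bad, hB, hσ⟩ := sapp_of_isSofic hH (F₀.preimage f hf.injOn) ε hε
  let σ' : G → Equiv.Perm X := fun g => if hg : ∃ a, f a = g then σ hg.choose else 1
  have hσ' : ∀ a, σ' (f a) = σ a := by
    intro a
    have hg : ∃ b, f b = f a := ⟨a, rfl⟩
    change (if hg : ∃ b, f b = f a then σ hg.choose else 1) = σ a
    rw [dif_pos hg]
    exact congrArg σ (hf hg.choose_spec)
  refine ⟨X, iX, nX, σ', Bad, hB, ?_⟩
  intro x hx
  obtain ⟨h1, h2⟩ := hσ x hx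
  constructor
  · intro g hg k hk
    obtain ⟨a, rfl⟩ := hr g hg
    obtain ⟨b, rfl⟩ := hr k hk
    rw [← map_mul, hσ', hσ', hσ']
    exact h1 a (Finset.mem_preimage.2 hg) b (Finset.mem_preimage.2 hk)
  · intro g hg hg1
    obtain ⟨a, rfl⟩ := hr g hg
    rw [hσ']
    refine h2 a (Finset.mem_preimage.2 hg) ?_
    rintro rfl
    exact hg1 (map_one f)

end Pool.Agent.H32.SQ
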