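import Pool.Agent.H32.SQ.Tile
import Pool.Agent.H32.SQ.Cyc

/-!
PIECE SQ-7: the tilings used for the two kinds of HNN extensions.

PROOF.
`sofMap_cur`: `Sm.cur`.
`tiling_free`: `S := ⟨z⟩`, `T := 1`, `τ = τ' = id` (`κ := F.X`); `φ` is the identity; `sepA` and `sepB` are `fix`, `inv` is `ker`.
`tiling_conj`: `e`, `e'` from `exists_num` for `a`, `b` (`DG.pow_notMem`).  On `F.cur`, at the index `(m, i)`: `κ := Fin (Nat.card (F.X i))`,
`T := (e i).trans (e' i).symm`, `τ x := e i x / (m + 1)`, `τ' x := e' i x / (m + 1)` (as elements of `Fin`: `Nat.div_le_self`), `S := {a} ∪ ⟨z⟩`.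
`gen`: `cyc_le`.  `conj`, for `a`: `φ a = b` (`cycEquiv_a`); outside the exceptional set of `e` and the preimage under `T` of the one of
`e'`: `e' (T (σ a x)) = e (σ a x) = e x + 1` and `e' (σ b (T x)) = e' (T x) + 1 = e x + 1`.  For `ζ ∈ ⟨z⟩`: `φ ζ = ζ` and `σ ζ x = x`,
`σ ζ (T x) = T x` outside small sets.  (These sets do not depend on `m`: `Sm.cur`.)
`inv`, for `a`: use `sm_cur`: outside the exceptional set `e (σ a x) = e x + 1`, and `(y + 1) / (m + 1) ≠ y / (m + 1)` iff `m + 1` divides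
`y + 1`; the number of `y < n` with this property is `n / (m + 1)` (inject in `Fin (n / (m + 1))` or `Nat.count`,
`Nat.card_multiples`), which is `≤ ε / 2 * n` for large `m`; for `ζ`: small, `ker`.  `lab`: immediate.
`sepA`: `g ∉ cyc D a`, then `g⁻¹ * a ^ j` and `a ^ j * g` are not in `⟨z⟩`; `sep_aux` with `m + 1` for every `m`, and `sm_cur`.
`sepB`: the same with `b`, `e'`.
-/

open Filter

namespace Pool.Agent.H32.SQ

theorem sofMap_cur {F : Fam} {Γ : Type} [Group Γ] {K : Subgroup Γ}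
    {σ : Γ → ∀ i, Equiv.Perm (F.X i)} (hσ : SofMap F K σ) :
    SofMap F.cur K (fun g p => σ g p.2) where
  mul g h := (hσ.mul g h).cur
  fix g hg := (hσ.fix g hg).cur
  ker g hg := (hσ.ker g hg).cur

theorem tiling_free (D : DG) {F : Fam} {σ : D.G → ∀ i, Equiv.Perm (F.X i)}
    (hσ : SofMap F (Subgroup.zpowers D.z) σ) :
    Tiling F σ (Subgroup.zpowers D.z) (Subgroup.zpowers D.z) (MulEquiv.refl _)
      (Subgroup.zpowers D.z : Set D.G) F.X (fun _ => 1) (fun _ x => x) (fun _ x => x) where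
  gen := fun _ hx => Subgroup.subset_closure hx
  sub := fun _ h => h
  conj := by
    intro a _
    refine Sm.empty.mono' fun i x hx => ?_
    exact absurd rfl hx
  inv := fun a ha => hσ.ker a ha
  lab := fun _ _ => rfl
  sepA := fun g hg => hσ.fix g hg
  sepB := fun g hg => hσ.fix g hg

private theorem tileZ_mult (F : Fam) (i : F.I) (e : F.X i ≃ Fin (Nat.card (F.X i))) (m : ℕ) :
    ({x : F.X i | (m + 1) ∣ (e x : ℕ) + 1}).ncard ≤ Nat.card (F.X i) / (m + 1) := by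
  rw [← Nat.card_multiples (Nat.card (F.X i)) (m + 1), ← Set.ncard_coe_finset]
  refine Set.ncard_le_ncard_of_injOn (fun x => (e x : ℕ)) ?_ ?_ (Finset.finite_toSet _)
  · intro x hx
    simp only [Finset.coe_filter, Finset.mem_range, Set.mem_ofPred_eq]
    exact ⟨(e x).isLt, hx⟩
  · intro x _ y _ hxy
    exact e.injective (Fin.ext hxy)

private theorem tileZ_inv {F : Fam} {τ₀ : ∀ i, F.X i → F.X i}
    (e : ∀ i, F.X i ≃ Fin (Nat.card (F.X i)))
    (he : Sm F (fun i => {x | (e i (τ₀ i x) : ℕ) ≠ (e i x : ℕ) + 1})) :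
    Sm F.cur (fun p : ℕ × F.I =>
      {x : F.X p.2 | (e p.2 (τ₀ p.2 x) : ℕ) / (p.1 + 1) ≠ (e p.2 x : ℕ) / (p.1 + 1)}) := by
  refine sm_cur fun ε hε => ?_
  obtain ⟨M, hM⟩ := exists_nat_one_div_lt (half_pos hε)
  filter_upwards [eventually_ge_atTop M] with m hm
  filter_upwards [he (ε / 2) (half_pos hε)] with i hi
  have h1 : ({x : F.X i | (e i (τ₀ i x) : ℕ) / (m + 1) ≠ (e i x : ℕ) / (m + 1)}) ⊆
      {x | (e i (τ₀ i x) : ℕ) ≠ (e i x : ℕ) + 1} ∪ {x : F.X i | (m + 1) ∣ (e i x : ℕ) + 1} := by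
    intro x hx
    by_contra hcon
    rw [Set.mem_union, not_or] at hcon
    obtain ⟨h2, h3⟩ := hcon
    simp only [Set.mem_ofPred_eq, not_not] at h2 h3
    apply hx
    rw [h2]
    exact Nat.succ_div_of_not_dvd h3
  have h2 := Set.ncard_le_ncard h1 (Set.toFinite _)
  have h3 := Set.ncard_union_le {x | (e i (τ₀ i x) : ℕ) ≠ (e i x : ℕ) + 1}
    {x : F.X i | (m + 1) ∣ (e i x : ℕ) + 1}
  have h4 := tileZ_mult F i (e i) m
  have h5 : (({x : F.X i | (m + 1) ∣ (e i x : ℕ) + 1}).ncard : ℝ) ≤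
      ε / 2 * Nat.card (F.X i) := by
    have h6 : (({x : F.X i | (m + 1) ∣ (e i x : ℕ) + 1}).ncard : ℝ) ≤
        (Nat.card (F.X i) : ℝ) / (m + 1) := by
      have h6a : (({x : F.X i | (m + 1) ∣ (e i x : ℕ) + 1}).ncard : ℝ) ≤
          ((Nat.card (F.X i) / (m + 1) : ℕ) : ℝ) := by exact_mod_cast h4
      have h6b := @Nat.cast_div_le ℝ _ _ _ (Nat.card (F.X i)) (m + 1)
      push_cast at h6b
      exact h6a.trans h6b
    have h7 : (1 : ℝ) / (m + 1) ≤ ε / 2 := by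
      refine le_trans ?_ hM.le
      apply one_div_le_one_div_of_le
      · positivity
      · have : (M : ℝ) ≤ m := by exact_mod_cast hm
        linarith
    have h8 : (0 : ℝ) ≤ Nat.card (F.X i) := Nat.cast_nonneg _
    calc _ ≤ (Nat.card (F.X i) : ℝ) / (m + 1) := h6
      _ = 1 / (m + 1) * Nat.card (F.X i) := by ring
      _ ≤ _ := mul_le_mul_of_nonneg_right h7 h8
  have h9 : (({x : F.X i | (e i (τ₀ i x) : ℕ) / (m + 1) ≠ (e i x : ℕ) / (m + 1)}).ncard : ℝ) ≤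
      ({x | (e i (τ₀ i x) : ℕ) ≠ (e i x : ℕ) + 1}).ncard +
        ({x : F.X i | (m + 1) ∣ (e i x : ℕ) + 1}).ncard := by
    exact_mod_cast h2.trans h3
  have h10 : (({x : F.X i | (e i (τ₀ i x) : ℕ) / (m + 1) ≠ (e i x : ℕ) / (m + 1)}).ncard : ℝ) ≤
      ε * Nat.card (F.X i) := by linarith
  exact h10

private theorem tileZ_sep (D : DG) {a : D.G}
    {F : Fam} {σ : D.G → ∀ i, Equiv.Perm (F.X i)} (hσ : SofMap F (Subgroup.zpowers D.z) σ)
    (e : ∀ i, F.X i ≃ Fin (Nat.card (F.X i)))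
    (he : Sm F (fun i => {x | (e i (σ a i x) : ℕ) ≠ (e i x : ℕ) + 1})) {g : D.G}
    (hg : g ∉ cyc D a) :
    Sm F.cur (fun p : ℕ × F.I =>
      {x : F.X p.2 | (e p.2 (σ g p.2 x) : ℕ) / (p.1 + 1) = (e p.2 x : ℕ) / (p.1 + 1)}) := by
  refine sm_cur fun ε hε => Eventually.of_forall fun m => ?_
  refine sep_aux hσ a e he (Nat.succ_pos m) g (fun j => ⟨fun h => hg ?_, fun h => hg ?_⟩) ε hε
  · refine mem_cyc.2 ⟨j, (g⁻¹ * a ^ j)⁻¹, Subgroup.inv_mem _ h, ?_⟩
    rw [zpow_natCast]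
    group
  · refine mem_cyc.2 ⟨-(j : ℤ), a ^ j * g, h, ?_⟩
    rw [zpow_neg, zpow_natCast]
    group

theorem tiling_conj (D : DG) {a b : D.G} (ha : ¬ IsOfFinOrder a) (hb : ¬ IsOfFinOrder b)
    {F : Fam} {σ : D.G → ∀ i, Equiv.Perm (F.X i)} (hσ : SofMap F (Subgroup.zpowers D.z) σ) :
    ∃ (T : ∀ p : ℕ × F.I, Equiv.Perm (F.X p.2))
      (τ τ' : ∀ p : ℕ × F.I, F.X p.2 → Fin (Nat.card (F.X p.2))),
      Tiling F.cur (fun g p => σ g p.2) (cyc D a) (cyc D b) (cycEquiv D ha hb)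
        ({a} ∪ (Subgroup.zpowers D.z : Set D.G)) (fun p => Fin (Nat.card (F.X p.2))) T τ τ' := by
  obtain ⟨e, he⟩ := exists_num hσ a (fun j hj => D.pow_notMem ha hj)
  obtain ⟨e', he'⟩ := exists_num hσ b (fun j hj => D.pow_notMem hb hj)
  refine ⟨fun p => (e p.2).trans (e' p.2).symm,
    fun p x => ⟨(e p.2 x : ℕ) / (p.1 + 1), lt_of_le_of_lt (Nat.div_le_self _ _) (e p.2 x).isLt⟩,
    fun p x => ⟨(e' p.2 x : ℕ) / (p.1 + 1), lt_of_le_of_lt (Nat.div_le_self _ _)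
      (e' p.2 x).isLt⟩, ?_⟩
  constructor
  · exact cyc_le D a
  · rintro x (hx | hx)
    · rw [Set.mem_singleton_iff] at hx
      rw [hx]
      exact a_mem_cyc D a
    · exact z_mem_cyc D a hx
  · rintro ⟨x, hx⟩ (hx1 | hx1)
    · change x = a at hx1
      subst hx1
      have h1 : ((cycEquiv D ha hb ⟨x, hx⟩ : cyc D b) : D.G) = b := cycEquiv_a D ha hb
      refine (((he.union (Sm.preimage (fun i => (e i).trans (e' i).symm) he')).cur)).mono'
        fun p y hy => ?_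
      by_contra hcon
      obtain ⟨h2', h3'⟩ := not_or.1 hcon
      have h2 : (e p.2 (σ x p.2 y) : ℕ) = (e p.2 y : ℕ) + 1 := not_not.1 h2'
      have h3 : (e' p.2 (σ b p.2 ((e' p.2).symm (e p.2 y))) : ℕ) =
          (e' p.2 ((e' p.2).symm (e p.2 y)) : ℕ) + 1 := not_not.1 h3'
      rw [Equiv.apply_symm_apply] at h3
      apply hy
      change (e' p.2).symm (e p.2 (σ x p.2 y)) =
        σ ((cycEquiv D ha hb ⟨x, hx⟩ : cyc D b) : D.G) p.2 ((e' p.2).symm (e p.2 y))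
      rw [h1, Equiv.symm_apply_eq]
      apply Fin.ext
      rw [h3, h2]
    · change x ∈ Subgroup.zpowers D.z at hx1
      have h1 : ((cycEquiv D ha hb ⟨x, hx⟩ : cyc D b) : D.G) = x := cycEquiv_z D ha hb hx1 hx
      have hk := hσ.ker x hx1
      refine (((hk.union (Sm.preimage (fun i => (e i).trans (e' i).symm) hk)).cur)).mono'
        fun p y hy => ?_
      by_contra hcon
      obtain ⟨h2', h3'⟩ := not_or.1 hcon
      have h2 : σ x p.2 y = y := not_not.1 h2'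
      have h3 : σ x p.2 ((e' p.2).symm (e p.2 y)) = (e' p.2).symm (e p.2 y) := not_not.1 h3'
      apply hy
      change (e' p.2).symm (e p.2 (σ x p.2 y)) =
        σ ((cycEquiv D ha hb ⟨x, hx⟩ : cyc D b) : D.G) p.2 ((e' p.2).symm (e p.2 y))
      rw [h1, h2, h3]
  · rintro x (hx | hx)
    · rw [Set.mem_singleton_iff] at hx
      rw [hx]
      refine (tileZ_inv e he).mono' fun p y hy => ?_
      intro h
      exact hy (Fin.ext h)
    · refine ((hσ.ker x hx).cur).mono' fun p y hy => ?_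
      intro h
      apply hy
      change (⟨(e p.2 (σ x p.2 y) : ℕ) / (p.1 + 1), _⟩ : Fin (Nat.card (F.X p.2))) =
        ⟨(e p.2 y : ℕ) / (p.1 + 1), _⟩
      apply Fin.ext
      change (e p.2 (σ x p.2 y) : ℕ) / (p.1 + 1) = (e p.2 y : ℕ) / (p.1 + 1)
      rw [h]
  · intro p x
    apply Fin.ext
    change (e' p.2 ((e' p.2).symm (e p.2 x)) : ℕ) / (p.1 + 1) = (e p.2 x : ℕ) / (p.1 + 1)
    rw [Equiv.apply_symm_apply]
  · intro g hg
    refine (tileZ_sep D hσ e he hg).mono' fun p y hy => ?_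
    exact congrArg Fin.val hy
  · intro g hg
    refine (tileZ_sep D hσ e' he' hg).mono' fun p y hy => ?_
    exact congrArg Fin.val hy

end Pool.Agent.H32.SQ
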