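import Pool.Agent.H32.SQ.HNN
import Pool.Agent.H32.SQ.TileZ

/-!
PIECE SQ-9: the two kinds of HNN extensions.

PROOF.
`hnn_countable`: `HNNExtension` is a quotient (`Con.Quotient`) of the coproduct, which is a quotient of `FreeMonoid (Γ ⊕ Multiplicative ℤ)`, a
countable type (lists); or: `FreeGroup (Γ ⊕ Unit)` maps onto it (`HNNExtension.induction_on` for surjectivity).
`hnnDG`: `z := of z`; `≠ 1` by `HNNExtension.of_injective`; it is central: the elements commuting with `of z` contain `of g` and `t`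
(`HNNExtension.t_mul_of`, `φ z = z`), use `HNNExtension.induction_on`; `Subgroup.map_zpowers` (or
`MonoidHom.map_zpowers`).
`step_free`: `obtain ⟨F, σ, hσ⟩ := D.sof`; `hnn_sof (sofMap_cur hσ) (tiling_free D (sofMap_cur hσ)) Prod.fst _` (the map `Prod.fst` tends to infinity along
`F.cur.l`: `Tendsto`, `eventually_curry_iff`).  `t` is the stable letter.  For `g * t`: the homomorphism `HNNExtension → Multiplicative ℤ` with `of g ↦ 1`,
`t ↦ ofAdd 1` (`HNNExtension.lift`) maps `g * t` to an element of infinite order (`MonoidHom.isOfFinOrder`).  For `g t g⁻¹ t⁻¹`, `g ∉ ⟨z⟩`: its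
`n`-th power, `n > 0`, is the product of the reduced word with `head := g` and the list
`(1, g⁻¹), (-1, g), (1, g⁻¹), ..., (-1, 1)`: the list `n` times `[(1, g⁻¹), (-1, g)]` with the last `g` replaced by `1`; or conjugate by `g`: `g⁻¹ * g t g⁻¹ t⁻¹ * g`
is `t g⁻¹ t⁻¹ g`, its `n`-th power is the product of the reduced word with head `1` and the list `(List.replicate n [(1, g⁻¹), (-1, g)]).flatten`
(reduced since `g, g⁻¹ ∉ A = B = ⟨z⟩`); by `HNNExtension.ReducedWord.toList_eq_nil_of_mem_of_range` it is not `1 = of 1`.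
`step_conj`: `hnn_sof (sofMap_cur hσ) (tiling from tiling_conj) Prod.fst _`; `b = t a t⁻¹` by `HNNExtension.equiv_eq_conj` and `cycEquiv_a`.
-/

open Filter

namespace Pool.Agent.H32.SQ

theorem hnn_countable {Γ : Type} [Group Γ] [Countable Γ] (A B : Subgroup Γ) (φ : A ≃* B) :
    Countable (HNNExtension Γ A B φ) := by
  have h1 : Countable (FreeMonoid (Γ ⊕ Multiplicative ℤ)) :=
    inferInstanceAs (Countable (List (Γ ⊕ Multiplicative ℤ)))
  have h2 : Countable (Monoid.Coprod Γ (Multiplicative ℤ)) :=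
    Monoid.Coprod.mk_surjective.countable
  exact (Con.mk'_surjective (c := HNNExtension.con Γ A B φ)).countable

private theorem step_central {Γ : Type} [Group Γ] {A B : Subgroup Γ} {φ : A ≃* B} {z : Γ}
    (cen : ∀ g, z * g = g * z) (hz : z ∈ A) (hφ : ((φ ⟨z, hz⟩ : B) : Γ) = z)
    (x : HNNExtension Γ A B φ) : Commute (HNNExtension.of z) x := by
  induction x using HNNExtension.induction_on with
  | of g =>
    change HNNExtension.of z * HNNExtension.of g = HNNExtension.of g * HNNExtension.of z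
    rw [← map_mul, cen g, map_mul]
  | t =>
    have h := HNNExtension.t_mul_of (φ := φ) ⟨z, hz⟩
    rw [hφ] at h
    exact h.symm
  | mul x y hx hy => exact hx.mul_right hy
  | inv x hx => exact hx.inv_right

/-- the HNN extension as a group with a central involution -/
theorem exists_hnnDG (D : DG) (A B : Subgroup D.G) (φ : A ≃* B) (hz : D.z ∈ A)
    (hφ : ((φ ⟨D.z, hz⟩ : B) : D.G) = D.z)
    (hs : SofMod ((Subgroup.zpowers D.z).map
      (HNNExtension.of : D.G →* HNNExtension D.G A B φ))) :
    ∃ (E : DG) (f : Emb D E) (e : E.G ≃* HNNExtension D.G A B φ),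
      ∀ g, e (f.f g) = HNNExtension.of g := by
  have hc : Countable (HNNExtension D.G A B φ) := hnn_countable A B φ
  have hs' : SofMod (Subgroup.zpowers
      (HNNExtension.of D.z : HNNExtension D.G A B φ)) := by
    rw [← MonoidHom.map_zpowers]
    exact hs
  let E : DG :=
    { G := HNNExtension D.G A B φ
      z := HNNExtension.of D.z
      ne := by
        intro h
        apply D.ne
        apply HNNExtension.of_injective φ
        rw [h, map_one]
      sq := by rw [← map_mul, D.sq, map_one]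
      cen := fun g => step_central D.cen hz hφ g
      sof := hs' }
  exact ⟨E, ⟨HNNExtension.of, HNNExtension.of_injective φ, rfl⟩, MulEquiv.refl _, fun _ => rfl⟩

private theorem step_tend (F : Fam) : Tendsto (Prod.fst : ℕ × F.I → ℕ) F.cur.l atTop := by
  change Tendsto Prod.fst ((atTop : Filter ℕ).curry F.l) atTop
  intro s hs
  change ∀ᶠ p in (atTop : Filter ℕ).curry F.l, Prod.fst p ∈ s
  rw [Filter.eventually_curry_iff]
  filter_upwards [hs] with m hm
  exact Eventually.of_forall fun i => hm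

private theorem step_chain {Γ : Type} [Group Γ] {A : Subgroup Γ} {g : Γ} (hg : g ∉ A) (n : ℕ) :
    ((List.replicate n [((1 : ℤˣ), g⁻¹), (-1, g)]).flatten).IsChain
      (fun a b => a.2 ∈ HNNExtension.toSubgroup A A a.1 → a.1 = b.1) := by
  induction n with
  | zero => simp
  | succ n ih =>
    rw [List.replicate_succ, List.flatten_cons]
    change List.IsChain _ ((1, g⁻¹) :: (-1, g) :: (List.replicate n _).flatten)
    rw [List.isChain_cons_cons]
    refine ⟨fun h => ?_, ?_⟩
    · exfalso
      apply hg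
      simpa using h
    · rw [List.isChain_cons]
      refine ⟨fun y _ h => ?_, ih⟩
      exfalso
      apply hg
      simpa using h

private theorem step_inf {Γ : Type} [Group Γ] {A : Subgroup Γ} {g : Γ} (hg : g ∉ A) :
    ¬ IsOfFinOrder ((HNNExtension.of g * HNNExtension.t * (HNNExtension.of g)⁻¹ *
      HNNExtension.t⁻¹ : HNNExtension Γ A A (MulEquiv.refl _))) := by
  rw [isOfFinOrder_iff_pow_eq_one]
  rintro ⟨n, hn, h⟩
  have h1 : ((HNNExtension.t * HNNExtension.of g⁻¹ * HNNExtension.t⁻¹ *
      HNNExtension.of g : HNNExtension Γ A A (MulEquiv.refl _))) ^ n = 1 := by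
    have h2 : (HNNExtension.t * HNNExtension.of g⁻¹ * HNNExtension.t⁻¹ *
      HNNExtension.of g : HNNExtension Γ A A (MulEquiv.refl _)) =
      (HNNExtension.of g)⁻¹ * (HNNExtension.of g * HNNExtension.t * (HNNExtension.of g)⁻¹ *
      HNNExtension.t⁻¹) * ((HNNExtension.of g)⁻¹)⁻¹ := by
      rw [map_inv]
      group
    rw [h2, conj_pow, h]
    group
  let w : HNNExtension.NormalWord.ReducedWord Γ A A :=
    { head := 1
      toList := (List.replicate n [((1 : ℤˣ), g⁻¹), (-1, g)]).flatten
      chain := step_chain hg n }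
  have h3 : w.prod (MulEquiv.refl _) = 1 := by
    rw [HNNExtension.NormalWord.ReducedWord.prod]
    change HNNExtension.of 1 * (List.map _ (List.replicate n _).flatten).prod = 1
    rw [map_one, one_mul, List.map_flatten, List.prod_flatten, List.map_replicate,
      List.map_replicate, List.prod_replicate, ← h1]
    congr 1
  have h4 := HNNExtension.ReducedWord.toList_eq_nil_of_mem_of_range (MulEquiv.refl _) w
    (by rw [h3]; exact Subgroup.one_mem _)
  change (List.replicate n [((1 : ℤˣ), g⁻¹), (-1, g)]).flatten = [] at h4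
  obtain ⟨k, rfl⟩ : ∃ k, n = k + 1 := ⟨n - 1, by omega⟩
  rw [List.replicate_succ, List.flatten_cons] at h4
  simp at h4

private theorem step_deg {Γ : Type} [Group Γ] {A : Subgroup Γ}
    (x : HNNExtension Γ A A (MulEquiv.refl _))
    (hx : HNNExtension.lift (φ := MulEquiv.refl A) (1 : Γ →* Multiplicative ℤ)
      (Multiplicative.ofAdd 1) (fun a => by simp) x = Multiplicative.ofAdd 1) :
    ¬ IsOfFinOrder x := by
  intro h
  have h1 := MonoidHom.isOfFinOrder (HNNExtension.lift (φ := MulEquiv.refl A)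
    (1 : Γ →* Multiplicative ℤ) (Multiplicative.ofAdd 1) (fun a => by simp)) h
  rw [hx, isOfFinOrder_iff_pow_eq_one] at h1
  obtain ⟨n, hn, h2⟩ := h1
  have h3 := congrArg Multiplicative.toAdd h2
  simp at h3
  omega

theorem step_free (D : DG) : ∃ (E : DG) (f : Emb D E) (t : E.G), ¬ IsOfFinOrder t ∧
    (∀ g : D.G, ¬ IsOfFinOrder (f.f g * t)) ∧
    ∀ g : D.G, g ∉ Subgroup.zpowers D.z → ¬ IsOfFinOrder (f.f g * t * (f.f g)⁻¹ * t⁻¹) := by
  obtain ⟨F, σ, hσ⟩ := D.sof
  have hs : SofMod ((Subgroup.zpowers D.z).map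
      (HNNExtension.of : D.G →* HNNExtension D.G (Subgroup.zpowers D.z)
        (Subgroup.zpowers D.z) (MulEquiv.refl _))) :=
    hnn_sof (sofMap_cur hσ) (tiling_free D (sofMap_cur hσ)) Prod.fst (step_tend F)
  obtain ⟨E, f, e, he⟩ := exists_hnnDG D _ _ (MulEquiv.refl _) (Subgroup.mem_zpowers D.z) rfl hs
  refine ⟨E, f, e.symm HNNExtension.t, ?_, ?_, ?_⟩
  · intro h
    refine step_deg (HNNExtension.t : HNNExtension D.G (Subgroup.zpowers D.z)
      (Subgroup.zpowers D.z) (MulEquiv.refl _)) (by simp) ?_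
    have h1 := MonoidHom.isOfFinOrder e.toMonoidHom h
    simpa using h1
  · intro g h
    refine step_deg (HNNExtension.of g * HNNExtension.t : HNNExtension D.G (Subgroup.zpowers D.z)
      (Subgroup.zpowers D.z) (MulEquiv.refl _)) (by simp) ?_
    have h1 := MonoidHom.isOfFinOrder e.toMonoidHom h
    simpa [he] using h1
  · intro g hg h
    refine step_inf hg ?_
    have h1 := MonoidHom.isOfFinOrder e.toMonoidHom h
    simpa [he] using h1

theorem step_conj (D : DG) (a b : D.G) (ha : ¬ IsOfFinOrder a) (hb : ¬ IsOfFinOrder b) :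
    ∃ (E : DG) (f : Emb D E), IsConj (f.f a) (f.f b) := by
  obtain ⟨F, σ, hσ⟩ := D.sof
  obtain ⟨T, τ, τ', hT⟩ := tiling_conj D ha hb hσ
  have hs : SofMod ((Subgroup.zpowers D.z).map
      (HNNExtension.of : D.G →* HNNExtension D.G (cyc D a) (cyc D b) (cycEquiv D ha hb))) :=
    hnn_sof (sofMap_cur hσ) hT Prod.fst (step_tend F)
  obtain ⟨E, f, e, he⟩ := exists_hnnDG D _ _ (cycEquiv D ha hb)
    (z_mem_cyc D a (Subgroup.mem_zpowers D.z))
    (cycEquiv_z D ha hb (Subgroup.mem_zpowers D.z) _) hs
  refine ⟨E, f, ?_⟩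
  rw [isConj_iff]
  refine ⟨e.symm HNNExtension.t, ?_⟩
  apply e.injective
  rw [map_mul, map_mul, map_inv, he, he, MulEquiv.apply_symm_apply]
  have h := HNNExtension.equiv_eq_conj (φ := cycEquiv D ha hb) ⟨a, a_mem_cyc D a⟩
  rw [cycEquiv_a] at h
  exact h.symm

end Pool.Agent.H32.SQ
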