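import Pool.Agent.H32.SQ.SmA
import Pool.Agent.H32.SQ.Path

/-!
PIECE SQ-4: tilings for infinite cyclic subgroups (modulo `K`).

PROOF.
`sm_pow`: induction on `j` (`σ (a ^ (j + 1)) = σ (a * a ^ j)`; `σ (a * a ^ j) x = σ a (σ (a ^ j) x)` outside a small set; for `j = 0` the
set is contained in `{x | σ 1 x ≠ x}`, small by `ker`).
`exists_num`: `e i` from `exists_path (σ a i)`.  Given `ε` choose `M > 0` with `1 / M ≤ ε / 2`; the set
`{x | ∃ j, 0 < j ∧ j < M ∧ (σ a i ^ j) x = x}` is contained in the finite union over `0 < j < M` of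
`{x | (σ a i ^ j) x ≠ σ (a ^ j) i x} ∪ {x | σ (a ^ j) i x = x}`, which are small (`sm_pow`, `fix`, as `a ^ j ∉ K`); so eventually
it has at most `ε / 2 * card` points, and `exists_path` gives `≤ card / M + ε / 2 * card`.
`sep_aux`: fix `m`; the labels are `e i x / m`.  If `e (x) / m = e (y) / m` and there is no exceptional point `w`
(`(e (σ a i w) : ℕ) ≠ e w + 1`) with the same label as `x`, then `y = (σ a i ^ j) x` or `x = (σ a i ^ j) y` for some `j < m`.  So the set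
`{x | e (σ g i x) / m = e x / m}` is contained in the union of the set of all `x` for which there is an exceptional point `w` with
`e w / m = e x / m` (at most `m * (number of exceptional points)`, as every label has at most `m` points: `m` is fixed, so this
is small by `exists_num`), of the sets `{x | σ g i x = (σ a i ^ j) x}`, `{x | (σ a i ^ j) (σ g i x) = x}`, `j < m`, which are small:
outside small sets `(σ a i ^ j) x = σ (a ^ j) i x`, and `σ (g⁻¹ * a ^ j) i x = x` is a small set since `g⁻¹ * a ^ j ∉ K`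
(if `σ g x = σ (a ^ j) x` then outside small sets `σ (g⁻¹) (σ g x) = σ (g⁻¹ * g) x = σ 1 x = x` and
`σ (g⁻¹) (σ (a ^ j) x) = σ (g⁻¹ * a ^ j) x`; similarly for `a ^ j * g`).  If `m = 0`: all labels are `0`; the statement is for `0 < m`.
-/

open Filter

namespace Pool.Agent.H32.SQ

variable {F : Fam} {Γ : Type} [Group Γ] {K : Subgroup Γ} {σ : Γ → ∀ i, Equiv.Perm (F.X i)}

theorem sm_pow (hσ : SofMap F K σ) (a : Γ) (j : ℕ) :
    Sm F (fun i => {x | (σ a i ^ j) x ≠ σ (a ^ j) i x}) := by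
  induction j with
  | zero =>
    refine (hσ.ker 1 K.one_mem).mono' fun i x hx => ?_
    simp only [Set.mem_ofPred_eq, pow_zero, Equiv.Perm.one_apply] at hx ⊢
    exact fun h => hx h.symm
  | succ j ih =>
    refine (ih.union (hσ.mul a (a ^ j))).mono' fun i x hx => ?_
    simp only [Set.mem_union, Set.mem_ofPred_eq] at hx ⊢
    by_contra hcon
    push Not at hcon
    apply hx
    rw [pow_succ', Equiv.Perm.mul_apply, hcon.1, pow_succ', hcon.2]

/-- numberings of the sets `X i` for which `a` is almost the successor function -/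
theorem exists_num (hσ : SofMap F K σ) (a : Γ) (ha : ∀ j : ℕ, 0 < j → a ^ j ∉ K) :
    ∃ e : ∀ i, F.X i ≃ Fin (Nat.card (F.X i)),
      Sm F (fun i => {x | (e i (σ a i x) : ℕ) ≠ (e i x : ℕ) + 1}) := by
  have h0 := fun i => exists_path (σ a i)
  choose e he using h0
  refine ⟨e, ?_⟩
  intro ε hε
  obtain ⟨M, hM⟩ := exists_nat_gt (2 / ε)
  have hM0 : (0 : ℝ) < M := lt_trans (by positivity) hM
  have hM1 : 0 < M := by exact_mod_cast hM0
  have h1 : Sm F (fun i => ⋃ j ∈ Finset.Ico 1 M,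
      ({x | (σ a i ^ j) x ≠ σ (a ^ j) i x} ∪ {x | σ (a ^ j) i x = x})) := by
    apply Sm.biUnion (S := fun j i => {x | (σ a i ^ j) x ≠ σ (a ^ j) i x} ∪ {x | σ (a ^ j) i x = x})
    intro j hj
    rw [Finset.mem_Ico] at hj
    exact (sm_pow hσ a j).union (hσ.fix _ (ha j (by omega)))
  filter_upwards [h1 (ε / 2) (by positivity)] with i hi
  have h2 : ({x : F.X i | ∃ j, 0 < j ∧ j < M ∧ (σ a i ^ j) x = x}.ncard : ℝ) ≤
      ε / 2 * Nat.card (F.X i) := by
    refine le_trans ?_ hi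
    have h3 : {x : F.X i | ∃ j, 0 < j ∧ j < M ∧ (σ a i ^ j) x = x} ⊆ ⋃ j ∈ Finset.Ico 1 M,
      ({x | (σ a i ^ j) x ≠ σ (a ^ j) i x} ∪ {x | σ (a ^ j) i x = x}) := by
      rintro x ⟨j, hj0, hjM, hx⟩
      simp only [Set.mem_iUnion, Finset.mem_Ico]
      refine ⟨j, ⟨hj0, hjM⟩, ?_⟩
      by_cases hc : (σ a i ^ j) x = σ (a ^ j) i x
      · right
        rw [Set.mem_ofPred_eq, ← hc, hx]
      · exact Or.inl hc
    exact_mod_cast Set.ncard_le_ncard h3 (Set.toFinite _)
  have h4 : (M : ℝ) * {x : F.X i | (e i (σ a i x) : ℕ) ≠ (e i x : ℕ) + 1}.ncard ≤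
        Nat.card (F.X i) + M * {x : F.X i | ∃ j, 0 < j ∧ j < M ∧ (σ a i ^ j) x = x}.ncard := by
    exact_mod_cast he i M hM1
  have h5 : (1 : ℝ) ≤ M * (ε / 2) := by
    have h6 := (div_lt_iff₀ hε).1 hM
    linarith
  have h7 : (0 : ℝ) ≤ Nat.card (F.X i) := Nat.cast_nonneg _
  have h8 : (Nat.card (F.X i) : ℝ) ≤ M * (ε / 2) * Nat.card (F.X i) := by
    calc (Nat.card (F.X i) : ℝ) = 1 * Nat.card (F.X i) := (one_mul _).symm
      _ ≤ _ := mul_le_mul_of_nonneg_right h5 h7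
  have h9 := mul_le_mul_of_nonneg_left h2 hM0.le
  have h10 : (M : ℝ) * {x : F.X i | (e i (σ a i x) : ℕ) ≠ (e i x : ℕ) + 1}.ncard ≤
      M * (ε * Nat.card (F.X i)) := by
    calc _ ≤ _ := h4
      _ ≤ M * (ε / 2) * Nat.card (F.X i) + M * (ε / 2 * Nat.card (F.X i)) := add_le_add h8 h9
      _ = _ := by ring
  exact le_of_mul_le_mul_left h10 hM0

private theorem Tile_walk {X : Type} (α : Equiv.Perm X) {N : ℕ} (e : X ≃ Fin N) (m : ℕ) (x y : X)
    (hx : ∀ w, (e w : ℕ) / m = (e x : ℕ) / m → (e (α w) : ℕ) = (e w : ℕ) + 1)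
    (hxy : (e x : ℕ) ≤ e y) (hl : (e y : ℕ) / m = (e x : ℕ) / m) (hm : 0 < m) :
    ∃ j, j < m ∧ (α ^ j) x = y := by
  have h1 : ∀ k, k ≤ (e y : ℕ) - e x → (e ((α ^ k) x) : ℕ) = e x + k := by
    intro k
    induction k with
    | zero => intro _; simp
    | succ k ih =>
      intro hk
      have h2 := ih (by omega)
      rw [pow_succ', Equiv.Perm.mul_apply, hx, h2]
      · omega
      · rw [h2]
        apply le_antisymm
        · rw [← hl]
          exact Nat.div_le_div_right (by omega)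
        · exact Nat.div_le_div_right (by omega)
  refine ⟨(e y : ℕ) - e x, ?_, ?_⟩
  · have h3 := Nat.div_add_mod (e x : ℕ) m
    have h4 := Nat.div_add_mod (e y : ℕ) m
    rw [hl] at h4
    have h5 := Nat.mod_lt (e y : ℕ) hm
    omega
  · apply e.injective
    apply Fin.ext
    rw [h1 _ le_rfl]
    omega

private theorem Tile_bad {X : Type} [Finite X] {N : ℕ} (e : X ≃ Fin N) {m : ℕ} (hm : 0 < m)
    (E : Set X) :
    {x | ∃ w ∈ E, (e w : ℕ) / m = (e x : ℕ) / m}.ncard ≤ E.ncard * m := by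
  classical
  have hc : ∀ x : {x | ∃ w ∈ E, (e w : ℕ) / m = (e x : ℕ) / m},
      ∃ w ∈ E, (e w : ℕ) / m = (e (x : X) : ℕ) / m := fun x => x.2
  choose w hw1 hw2 using hc
  let f : {x | ∃ w ∈ E, (e w : ℕ) / m = (e x : ℕ) / m} → E × Fin m := fun x =>
    (⟨w x, hw1 x⟩, ⟨(e (x : X) : ℕ) % m, Nat.mod_lt _ hm⟩)
  have hf : Function.Injective f := by
    intro x y h
    have h1 : w x = w y := congrArg (fun p : E × Fin m => (p.1 : X)) h
    have h2 : (e (x : X) : ℕ) % m = (e (y : X) : ℕ) % m :=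
      congrArg (fun p : E × Fin m => (p.2 : ℕ)) h
    have h3 : (e (x : X) : ℕ) / m = (e (y : X) : ℕ) / m := by
      rw [← hw2 x, ← hw2 y, h1]
    have h4 : (e (x : X) : ℕ) = (e (y : X) : ℕ) := by
      rw [← Nat.div_add_mod (e (x : X) : ℕ) m, h2, h3, Nat.div_add_mod]
    exact Subtype.ext (e.injective (Fin.ext h4))
  have h5 := Nat.card_le_card_of_injective f hf
  rwa [Nat.card_prod, Nat.card_fin, Nat.card_coe_set_eq, Nat.card_coe_set_eq] at h5

theorem sep_aux (hσ : SofMap F K σ) (a : Γ) (e : ∀ i, F.X i ≃ Fin (Nat.card (F.X i)))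
    (he : Sm F (fun i => {x | (e i (σ a i x) : ℕ) ≠ (e i x : ℕ) + 1})) {m : ℕ} (hm : 0 < m)
    (g : Γ) (hg : ∀ j : ℕ, g⁻¹ * a ^ j ∉ K ∧ a ^ j * g ∉ K) :
    Sm F (fun i => {x | (e i (σ g i x) : ℕ) / m = (e i x : ℕ) / m}) := by
  have hm0 : (0 : ℝ) < m := by exact_mod_cast hm
  -- the points whose label is the label of an exceptional point
  have hW : Sm F (fun i => {x | ∃ w ∈ {x | (e i (σ a i x) : ℕ) ≠ (e i x : ℕ) + 1},
      (e i w : ℕ) / m = (e i x : ℕ) / m}) := by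
    intro ε hε
    filter_upwards [he (ε / m) (by positivity)] with i hi
    have h1 : ({x | ∃ w ∈ {x | (e i (σ a i x) : ℕ) ≠ (e i x : ℕ) + 1},
      (e i w : ℕ) / m = (e i x : ℕ) / m}.ncard : ℝ) ≤
        ({x | (e i (σ a i x) : ℕ) ≠ (e i x : ℕ) + 1}.ncard : ℝ) * m := by
      exact_mod_cast Tile_bad (e i) hm _
    refine h1.trans ?_
    calc _ ≤ ε / m * Nat.card (F.X i) * m := mul_le_mul_of_nonneg_right hi hm0.le
      _ = _ := by field_simp
  -- coincidences
  have h1 : ∀ j, Sm F (fun i => {x | (σ a i ^ j) x = σ g i x}) := by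
    intro j
    refine ((((sm_pow hσ a j).union (hσ.mul g⁻¹ g)).union (hσ.mul g⁻¹ (a ^ j))).union
      ((hσ.fix _ (hg j).1).union (hσ.ker 1 K.one_mem))).mono' fun i x hx => ?_
    simp only [Set.mem_union, Set.mem_ofPred_eq] at hx ⊢
    by_contra hcon
    push Not at hcon
    obtain ⟨⟨⟨c1, c2⟩, c3⟩, c4, c5⟩ := hcon
    apply c4
    rw [c3, ← c1, hx, ← c2, inv_mul_cancel, c5]
  have h2 : ∀ j, Sm F (fun i => {x | (σ a i ^ j) (σ g i x) = x}) := by
    intro j
    refine ((((sm_pow hσ a j).preimage (fun i => σ g i)).union (hσ.mul (a ^ j) g)).union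
      (hσ.fix _ (hg j).2)).mono' fun i x hx => ?_
    simp only [Set.mem_union, Set.mem_ofPred_eq, Set.mem_preimage] at hx ⊢
    by_contra hcon
    push Not at hcon
    obtain ⟨⟨c1, c2⟩, c3⟩ := hcon
    apply c3
    rw [c2, ← c1, hx]
  have h3 : Sm F (fun i => ⋃ j ∈ Finset.range m,
      ({x | (σ a i ^ j) x = σ g i x} ∪ {x | (σ a i ^ j) (σ g i x) = x})) := by
    apply Sm.biUnion
      (S := fun j i => {x | (σ a i ^ j) x = σ g i x} ∪ {x | (σ a i ^ j) (σ g i x) = x})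
    intro j _
    exact (h1 j).union (h2 j)
  refine (hW.union h3).mono' fun i x hx => ?_
  simp only [Set.mem_ofPred_eq] at hx
  by_cases hc : ∃ w ∈ {x | (e i (σ a i x) : ℕ) ≠ (e i x : ℕ) + 1}, (e i w : ℕ) / m = (e i x : ℕ) / m
  · exact Or.inl hc
  right
  have hc' : ∀ w, (e i w : ℕ) / m = (e i x : ℕ) / m → (e i (σ a i w) : ℕ) = (e i w : ℕ) + 1 := by
    intro w hw
    by_contra hne
    exact hc ⟨w, hne, hw⟩
  simp only [Set.mem_iUnion, Finset.mem_range, Set.mem_union, Set.mem_ofPred_eq]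
  rcases le_total (e i x : ℕ) (e i (σ g i x)) with hle | hle
  · obtain ⟨j, hj, hjx⟩ := Tile_walk (σ a i) (e i) m x (σ g i x) hc' hle hx hm
    exact ⟨j, hj, Or.inl hjx⟩
  · obtain ⟨j, hj, hjx⟩ := Tile_walk (σ a i) (e i) m (σ g i x) x
      (fun w hw => hc' w (hw.trans hx)) hle hx.symm hm
    exact ⟨j, hj, Or.inr hjx⟩

end Pool.Agent.H32.SQ
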